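import Mathlib
import Pool.Agent.H95.EB.Irr

/-!
# Irreducibility of `(m X ^ N) ^ 2 + 1` over `ℚ`
-/

set_option autoImplicit false

namespace Pool.Agent.H95.SP

open Polynomial IntermediateField Pool.Agent.H95.EB

/-- Capelli's theorem over fields containing a square root of `-1` -/
theorem irr_of_I {n : ℕ} (hn : n ≠ 0) {K : Type} [Field K] {i : K} (hi : i ^ 2 = -1) {a : K}
    (ha : ∀ p : ℕ, p.Prime → p ∣ n → ∀ b : K, b ^ p ≠ a) : Irreducible (X ^ n - C a) := by
  induction n using induction_on_primes generalizing K a i with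
  | zero => exact absurd rfl hn
  | one => simpa using irreducible_X_sub_C a
  | prime_mul p n hp IH =>
    rw [mul_comm]
    apply X_pow_mul_sub_C_irreducible
      (X_pow_sub_C_irreducible_of_prime hp (ha p hp (dvd_mul_right _ _)))
    intro E _ _ x hx
    have hint : IsIntegral K x := not_not.mp fun h ↦ by
      simpa only [degree_zero, degree_X_pow_sub_C hp.pos,
        WithBot.natCast_ne_bot] using congr_arg degree (hx.symm.trans (dif_neg h))
    have hi' : (algebraMap K K⟮x⟯ i) ^ 2 = -1 := by rw [← map_pow, hi, map_neg, map_one]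
    apply IH (by rintro rfl; simp at hn) hi'
    intro q hq hqn b hb
    have hnorm : Algebra.norm K b ^ q = (-1) ^ p * -a := by
      rw [← map_pow, hb, ← adjoin.powerBasis_gen hint,
        Algebra.PowerBasis.norm_gen_eq_coeff_zero_minpoly]
      simp [minpoly_gen, hx, hp.ne_zero.symm, adjoin.powerBasis_dim]
    rcases hp.eq_two_or_odd' with h2 | h2
    · -- the norm is `-a`
      rw [h2] at hnorm
      have h3 : Algebra.norm K b ^ q = -a := by rw [hnorm]; ring
      rcases hq.eq_two_or_odd' with h4 | h4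
      · apply ha q hq (dvd_mul_of_dvd_right hqn p) (i * Algebra.norm K b)
        rw [h4] at h3 ⊢
        rw [mul_pow, h3, hi]
        ring
      · apply ha q hq (dvd_mul_of_dvd_right hqn p) (- Algebra.norm K b)
        rw [h4.neg_pow, h3, neg_neg]
    · apply ha q hq (dvd_mul_of_dvd_right hqn p) (Algebra.norm K b)
      rw [hnorm, h2.neg_one_pow]
      ring

/-- the degree of a field containing an `N`-th root of a square root of `-1` divided by `κ` -/
lemma dvd_finrank2 {k : Type} [Field k] [CharZero k] (hk : ∀ x : k, x ^ 2 ≠ -1)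
    {E : Type} [Field E] [Algebra k E] [FiniteDimensional k E] {N : ℕ} {κ : k} (hκ : κ ≠ 0)
    (hodd : ∀ p : ℕ, p.Prime → p ≠ 2 → p ∣ N → ∀ c : k, c ^ p ≠ κ ^ 2)
    (h2 : 2 ∣ N → ∀ u : k, 2 * u ^ 2 ≠ κ ∧ 2 * u ^ 2 ≠ -κ) (hN : 0 < N) (y : E)
    (hy : (algebraMap k E κ * y ^ N) ^ 2 = -1) :
    2 * N ∣ Module.finrank k E := by
  obtain ⟨η, hη⟩ : ∃ η : E, η = algebraMap k E κ * y ^ N := ⟨_, rfl⟩
  have hη2 : η ^ 2 = -1 := by rw [hη, hy]
  have hint : IsIntegral k η := IsIntegral.of_finite k η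
  have hirX : Irreducible (X ^ 2 + 1 : k[X]) := by
    have h1 : (X ^ 2 + 1 : k[X]) = X ^ 2 - C (-1) := by rw [C_neg, C_1, sub_neg_eq_add]
    rw [h1]
    exact X_pow_sub_C_irreducible_of_prime Nat.prime_two hk
  have hmin : minpoly k η = X ^ 2 + 1 := by
    symm
    apply minpoly.eq_of_irreducible_of_monic hirX
    · simp [hη2]
    · exact (by monicity! : Monic (X ^ 2 + 1 : k[X]))
  have hdeg : (minpoly k η).natDegree = 2 := by
    rw [hmin]
    exact (by compute_degree! : (X ^ 2 + 1 : k[X]).natDegree = 2)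
  have hfin : Module.finrank k k⟮η⟯ = 2 := by
    rw [adjoin.finrank hint, hdeg]
  -- the square root of `-1` in the quadratic field
  obtain ⟨i, hi⟩ : ∃ i : k⟮η⟯, i = AdjoinSimple.gen k η := ⟨_, rfl⟩
  have hiE : (algebraMap k⟮η⟯ E) i = η := by rw [hi]; exact AdjoinSimple.algebraMap_gen k η
  have hi2 : i ^ 2 = -1 := by
    apply (algebraMap k⟮η⟯ E).injective
    rw [map_pow, hiE, hη2, map_neg, map_one]
  have hrep : ∀ z : k⟮η⟯, ∃ u v : k, z = algebraMap k k⟮η⟯ u + algebraMap k k⟮η⟯ v * i := by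
    intro z
    obtain ⟨f, hf, hz⟩ := (adjoin.powerBasis hint).exists_eq_aeval z
    rw [adjoin.powerBasis_dim, hdeg] at hf
    obtain ⟨a, b, hab⟩ := exists_eq_X_add_C_of_natDegree_le_one (by omega : f.natDegree ≤ 1)
    refine ⟨b, a, ?_⟩
    rw [hz, hab, adjoin.powerBasis_gen, hi]
    simp only [map_add, map_mul, aeval_C, aeval_X]
    ring
  have huv : ∀ u v : k, algebraMap k k⟮η⟯ u + algebraMap k k⟮η⟯ v * i = 0 → u = 0 ∧ v = 0 := by
    intro u v h
    by_cases hv : v = 0
    · rw [hv, map_zero, zero_mul, add_zero, map_eq_zero] at h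
      exact ⟨h, hv⟩
    · exfalso
      have hv' : algebraMap k k⟮η⟯ v ≠ 0 := (_root_.map_ne_zero _).2 hv
      have h3 : i = algebraMap k k⟮η⟯ (-u / v) := by
        rw [map_div₀, map_neg, eq_div_iff hv']
        linear_combination h
      rw [h3, ← map_pow] at hi2
      apply hk (-u / v)
      apply (algebraMap k k⟮η⟯).injective
      rw [hi2, map_neg, map_one]
  have hnormi : Algebra.norm k i = 1 := by
    have h1 := Algebra.PowerBasis.norm_gen_eq_coeff_zero_minpoly (adjoin.powerBasis hint)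
    rw [adjoin.powerBasis_gen, adjoin.powerBasis_dim, minpoly_gen, hdeg, hmin, ← hi] at h1
    rw [h1]
    simp
  have hκ' : algebraMap k k⟮η⟯ κ ≠ 0 := (_root_.map_ne_zero _).2 hκ
  have hirr : Irreducible (X ^ N - C (i / algebraMap k k⟮η⟯ κ) : (k⟮η⟯)[X]) := by
    refine irr_of_I hN.ne' hi2 ?_
    intro p hp hpN z hz
    rw [eq_div_iff hκ'] at hz
    by_cases hp2 : p = 2
    · rw [hp2] at hz hpN
      obtain ⟨u, v, rfl⟩ := hrep z
      have h3 : algebraMap k k⟮η⟯ ((u ^ 2 - v ^ 2) * κ) +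
          algebraMap k k⟮η⟯ (2 * u * v * κ - 1) * i = 0 := by
        simp only [map_sub, map_pow, map_mul, map_ofNat, map_one]
        linear_combination hz - (algebraMap k k⟮η⟯ v) ^ 2 * algebraMap k k⟮η⟯ κ * hi2
      obtain ⟨h4, h5⟩ := huv _ _ h3
      have h6 : u ^ 2 - v ^ 2 = 0 := by
        rcases mul_eq_zero.1 h4 with h | h
        · exact h
        · exact absurd h hκ
      have h20 : (2 : k) ≠ 0 := two_ne_zero
      have hu0 : u ≠ 0 := by
        rintro rfl
        rw [mul_zero, zero_mul, zero_mul, zero_sub, neg_eq_zero] at h5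
        exact one_ne_zero h5
      have h8 : (u - v) * (u + v) = 0 := by linear_combination h6
      have h9 := h2 hpN (1 / (2 * u))
      rcases mul_eq_zero.1 h8 with h | h
      · have h10 : v = u := by linear_combination -h
        rw [h10] at h5
        apply h9.1
        field_simp
        linear_combination -h5
      · have h10 : v = -u := by linear_combination h
        rw [h10] at h5
        apply h9.2
        field_simp
        linear_combination -h5
    · have h3 := congrArg (Algebra.norm k) hz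
      rw [map_mul, map_pow, hnormi, Algebra.norm_algebraMap, hfin] at h3
      have hn0 : Algebra.norm k z ≠ 0 := by
        intro h0
        rw [h0, zero_pow hp.ne_zero, zero_mul] at h3
        exact zero_ne_one h3
      apply hodd p hp hp2 hpN (Algebra.norm k z)⁻¹
      rw [inv_pow]
      field_simp
      linear_combination -h3
  have hyN : y ^ N = η / algebraMap k E κ := by
    rw [hη, mul_div_cancel_left₀]
    exact (_root_.map_ne_zero _).2 hκ
  have hroot : aeval y (X ^ N - C (i / algebraMap k k⟮η⟯ κ) : (k⟮η⟯)[X]) = 0 := by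
    rw [map_sub, map_pow, aeval_X, aeval_C, map_div₀, hiE, ← IsScalarTower.algebraMap_apply, hyN,
      sub_self]
  have hmy : minpoly k⟮η⟯ y = X ^ N - C (i / algebraMap k k⟮η⟯ κ) :=
    (minpoly.eq_of_irreducible_of_monic hirr hroot (monic_X_pow_sub_C _ hN.ne')).symm
  have h3 : N ∣ Module.finrank k⟮η⟯ E := by
    have h4 := minpoly.degree_dvd (K := k⟮η⟯) (x := y) (IsIntegral.of_finite _ _)
    rwa [hmy, natDegree_X_pow_sub_C] at h4
  rw [← Module.finrank_mul_finrank k k⟮η⟯ E, hfin]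
  exact mul_dvd_mul_left 2 h3

/-- **Irreducibility of `(κ X ^ N) ^ 2 + 1`.** -/
theorem irrQ {k : Type} [Field k] [CharZero k] (hk : ∀ x : k, x ^ 2 ≠ -1) {N : ℕ} {κ : k}
    (hκ0 : κ ≠ 0) (hodd : ∀ p : ℕ, p.Prime → p ≠ 2 → p ∣ N → ∀ c : k, c ^ p ≠ κ ^ 2)
    (h2 : 2 ∣ N → ∀ u : k, 2 * u ^ 2 ≠ κ ∧ 2 * u ^ 2 ≠ -κ) (hN : 0 < N) :
    Irreducible ((C κ * X ^ N) ^ 2 + 1 : k[X]) := by
  obtain ⟨P, hP⟩ : ∃ P : k[X], P = (C κ * X ^ N) ^ 2 + 1 := ⟨_, rfl⟩
  have hP' : P = C (κ ^ 2) * X ^ (2 * N) + 1 := by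
    rw [hP, mul_pow, ← C_pow, ← pow_mul, mul_comm N]
  have hPd : P.natDegree = 2 * N := by
    rw [hP', ← C_1]
    rw [natDegree_add_C]
    exact natDegree_C_mul_X_pow (2 * N) _ (pow_ne_zero _ hκ0)
  have hP0 : P ≠ 0 := by
    intro h
    rw [h, natDegree_zero] at hPd
    omega
  have hP1 : ¬ IsUnit P := by
    intro h
    have := natDegree_eq_zero_of_isUnit h
    omega
  rw [← hP]
  obtain ⟨g, hg, hgP⟩ := WfDvdMonoid.exists_irreducible_factor hP1 hP0
  have hgf : Fact (Irreducible g) := ⟨hg⟩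
  have hroot : (algebraMap k (AdjoinRoot g) κ * (AdjoinRoot.root g) ^ N) ^ 2 = -1 := by
    obtain ⟨q, hq⟩ := hgP
    have h1 : eval₂ (AdjoinRoot.of g) (AdjoinRoot.root g) P = 0 := by
      rw [hq, eval₂_mul, AdjoinRoot.eval₂_root, zero_mul]
    rw [hP] at h1
    simp only [eval₂_add, eval₂_mul, eval₂_pow, eval₂_X, eval₂_C, eval₂_one] at h1
    rw [AdjoinRoot.algebraMap_eq]
    linear_combination h1
  have hfin : Module.Finite k (AdjoinRoot g) := (AdjoinRoot.powerBasis hg.ne_zero).finite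
  have hn : Module.finrank k (AdjoinRoot g) = g.natDegree := by
    rw [(AdjoinRoot.powerBasis hg.ne_zero).finrank, AdjoinRoot.powerBasis_dim]
  have hdvd : 2 * N ∣ g.natDegree := by
    rw [← hn]
    exact dvd_finrank2 hk hκ0 hodd h2 hN _ hroot
  have hle : g.natDegree ≤ 2 * N := by
    rw [← hPd]
    exact natDegree_le_of_dvd hgP hP0
  have heq : g.natDegree = 2 * N := le_antisymm hle (Nat.le_of_dvd hg.natDegree_pos hdvd)
  obtain ⟨q, hq⟩ := hgP
  have hq0 : q ≠ 0 := by
    rintro rfl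
    rw [mul_zero] at hq
    exact hP0 hq
  have hqd : q.natDegree = 0 := by
    have h1 := congrArg natDegree hq
    rw [natDegree_mul hg.ne_zero hq0, hPd] at h1
    omega
  have hqu : IsUnit q := by
    rw [natDegree_eq_zero] at hqd
    obtain ⟨x, rfl⟩ := hqd
    exact isUnit_C.2 (isUnit_iff_ne_zero.2 (by rintro rfl; simp at hq0))
  rw [hq]
  exact (irreducible_mul_isUnit hqu).2 hg

end Pool.Agent.H95.SP
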