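import Mathlib

/-!
# Irreducibility of `(∑ κ i X i ^ N) ^ 2 + 1` in at least two variables
-/

set_option autoImplicit false

namespace Pool.Agent.H95.SP

open MvPolynomial

section closed
variable {F : Type} [Field F] [CharZero F]

/-- a diagonal polynomial with at least two variables and nonzero constant term is irreducible -/
theorem irrOpt {σ : Type} [Fintype σ] [DecidableEq σ] (κ0 : F) (hκ0 : κ0 ≠ 0) (κ : σ → F)
    (j1 : σ) (hj1 : κ j1 ≠ 0) (c : F) (hc : c ≠ 0) {N : ℕ} (hN : 0 < N) (ρ : F)
    (hρ : κ j1 * ρ ^ N + c = 0) :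
    Irreducible (C κ0 * X none ^ N + ∑ j, C (κ j) * X (some j) ^ N + C c :
      MvPolynomial (Option σ) F) := by
  rw [← MulEquiv.irreducible_iff (optionEquivLeft F σ)]
  obtain ⟨g, hg⟩ : ∃ g : MvPolynomial σ F, g = ∑ j, C (κ j) * X j ^ N + C c := ⟨_, rfl⟩
  have h1 : (optionEquivLeft F σ) (C κ0 * X none ^ N + ∑ j, C (κ j) * X (some j) ^ N + C c) =
      Polynomial.C (C κ0) * Polynomial.X ^ N + Polynomial.C g := by
    rw [hg]
    simp only [map_add, map_mul, map_pow, map_sum, optionEquivLeft_X_none, optionEquivLeft_X_some,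
      optionEquivLeft_C]
    ring
  rw [h1]
  -- the point
  obtain ⟨x, hx⟩ : ∃ x : σ → F, x = Pi.single j1 ρ := ⟨_, rfl⟩
  obtain ⟨P, hP⟩ : ∃ P : Ideal (MvPolynomial σ F), P = RingHom.ker (eval x) := ⟨_, rfl⟩
  have hρ0 : ρ ≠ 0 := by
    rintro rfl
    rw [zero_pow hN.ne', mul_zero, zero_add] at hρ
    exact hc hρ
  have hPp : P.IsPrime := by rw [hP]; exact RingHom.ker_isPrime _
  have hgx : eval x g = 0 := by
    rw [hg, map_add, map_sum, eval_C]
    rw [Finset.sum_eq_single j1]
    · rw [map_mul, eval_C, map_pow, eval_X, hx, Pi.single_eq_same]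
      exact hρ
    · intro j _ hj
      rw [map_mul, eval_C, map_pow, eval_X, hx, Pi.single_eq_of_ne hj, zero_pow hN.ne', mul_zero]
    · intro h
      exact absurd (Finset.mem_univ _) h
  have hgP : g ∈ P := by rw [hP, RingHom.mem_ker]; exact hgx
  have hκP : (C κ0 : MvPolynomial σ F) ∉ P := by
    rw [hP, RingHom.mem_ker, eval_C]
    exact hκ0
  -- `g` is not in the square of the ideal
  have hder : ∀ p ∈ P ^ 2, eval x (pderiv j1 p) = 0 := by
    intro p hp
    rw [pow_two] at hp
    refine Submodule.mul_induction_on hp ?_ ?_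
    · intro a ha b hb
      rw [hP, RingHom.mem_ker] at ha hb
      rw [Derivation.leibniz, map_add, smul_eq_mul, smul_eq_mul, map_mul, map_mul, ha, hb]
      ring
    · intro a b ha hb
      rw [map_add, map_add, ha, hb, add_zero]
  have hgder : eval x (pderiv j1 g) = κ j1 * (N * ρ ^ (N - 1)) := by
    rw [hg, map_add, map_sum, pderiv_C, add_zero, map_sum, Finset.sum_eq_single j1]
    · rw [Derivation.leibniz, pderiv_C, smul_zero, add_zero, smul_eq_mul, map_mul, eval_C,
        Derivation.leibniz_pow, pderiv_X_self]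
      simp [hx]
    · intro j _ hj
      rw [Derivation.leibniz, pderiv_C, smul_zero, add_zero, Derivation.leibniz_pow,
        pderiv_X_of_ne hj]
      simp
    · intro h
      exact absurd (Finset.mem_univ _) h
  have hg2 : g ∉ P ^ 2 := by
    intro h
    have h2 := hder g h
    rw [hgder] at h2
    have h3 : (N : F) ≠ 0 := by exact_mod_cast hN.ne'
    exact (mul_ne_zero hj1 (mul_ne_zero h3 (pow_ne_zero _ hρ0))) h2
  obtain ⟨f, hf⟩ : ∃ f : Polynomial (MvPolynomial σ F),
    f = Polynomial.C (C κ0) * Polynomial.X ^ N + Polynomial.C g := ⟨_, rfl⟩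
  rw [← hf]
  have hC0 : (C κ0 : MvPolynomial σ F) ≠ 0 := by
    intro h
    exact hκP (h ▸ P.zero_mem)
  have hcoef : ∀ n, f.coeff n = if n = N then C κ0 else if n = 0 then g else 0 := by
    intro n
    rw [hf, Polynomial.coeff_add, Polynomial.coeff_C_mul, Polynomial.coeff_X_pow, Polynomial.coeff_C]
    by_cases h1 : n = N
    · rw [if_pos h1, if_pos h1, if_neg (by omega), mul_one, add_zero]
    · rw [if_neg h1, if_neg h1, mul_zero, zero_add]
  have hnd : f.natDegree = N := by
    rw [hf, Polynomial.natDegree_add_C]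
    exact Polynomial.natDegree_C_mul_X_pow N _ hC0
  have hlead : f.leadingCoeff = C κ0 := by
    rw [Polynomial.leadingCoeff, hnd, hcoef, if_pos rfl]
  have hf0 : f ≠ 0 := by
    intro h
    rw [h, Polynomial.natDegree_zero] at hnd
    omega
  refine Polynomial.irreducible_of_eisenstein_criterion hPp ?_ ?_ ?_ ?_ ?_
  · rw [hlead]; exact hκP
  · intro n hn
    rw [Polynomial.degree_eq_natDegree hf0, hnd, Nat.cast_lt] at hn
    rw [hcoef, if_neg (by omega)]
    split_ifs
    · exact hgP
    · exact P.zero_mem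
  · rw [Polynomial.degree_eq_natDegree hf0, hnd]
    exact_mod_cast hN
  · rw [hcoef, if_neg (by omega), if_pos rfl]
    exact hg2
  · intro r hr
    have h2 := (Polynomial.C_dvd_iff_dvd_coeff r f).1 hr N
    rw [hcoef, if_pos rfl] at h2
    exact isUnit_of_dvd_unit h2 ((isUnit_iff_ne_zero.2 hκ0).map C)

/-- the same for an arbitrary index type -/
theorem irrDiag {τ : Type} [Fintype τ] [DecidableEq τ] (κ : τ → F) (i0 i1 : τ) (hi : i0 ≠ i1)
    (h0 : κ i0 ≠ 0) (h1 : κ i1 ≠ 0) (c : F) (hc : c ≠ 0) {N : ℕ} (hN : 0 < N) (ρ : F)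
    (hρ : κ i1 * ρ ^ N + c = 0) :
    Irreducible (∑ i, C (κ i) * X i ^ N + C c : MvPolynomial τ F) := by
  let e : Option {j : τ // j ≠ i0} ≃ τ := Equiv.optionSubtypeNe i0
  have he0 : e none = i0 := rfl
  have hes : ∀ j : {j : τ // j ≠ i0}, e (some j) = j := fun j => rfl
  rw [← MulEquiv.irreducible_iff (renameEquiv F e.symm)]
  have h2 : (renameEquiv F e.symm) (∑ i, C (κ i) * X i ^ N + C c) =
      C (κ i0) * X none ^ N + ∑ j : {j : τ // j ≠ i0}, C (κ j) * X (some j) ^ N + C c := by
    rw [map_add, map_sum]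
    congr 1
    · rw [← e.sum_comp, Fintype.sum_option]
      simp only [he0, hes, map_mul, map_pow, renameEquiv_apply, rename_X, algHom_C, algebraMap_eq]
      congr 1
      · congr 3
        exact (Equiv.symm_apply_eq e).2 he0.symm
      · refine Finset.sum_congr rfl fun j _ => ?_
        congr 3
        rw [← hes j, Equiv.symm_apply_apply]
    · simp
  rw [h2]
  exact irrOpt (κ i0) h0 (fun j : {j : τ // j ≠ i0} => κ j) ⟨i1, fun h => hi h.symm⟩ h1 c hc hN ρ hρ

end closed

lemma isUnit_mv {F : Type} [Field F] {τ : Type} {p : MvPolynomial τ F} (hp : IsUnit p) :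
    ∃ r : F, r ≠ 0 ∧ p = C r := by
  obtain ⟨r, hr, h⟩ := (MvPolynomial.isUnit_iff_eq_C_of_isReduced).1 hp
  exact ⟨r, hr.ne_zero, h⟩

section base
variable {K : Type} [Field K] [CharZero K]

/-- **Irreducibility of `(∑ κ i X i ^ N) ^ 2 + 1`.** -/
theorem irrSq {τ : Type} [Fintype τ] [DecidableEq τ] (hK : ∀ x : K, x ^ 2 ≠ -1) (κ : τ → K)
    (i0 i1 : τ) (hi : i0 ≠ i1) (h0 : κ i0 ≠ 0) (h1 : κ i1 ≠ 0) {N : ℕ} (hN : 0 < N) :
    Irreducible ((∑ i, C (κ i) * X i ^ N) ^ 2 + 1 : MvPolynomial τ K) := by
  have hch : CharZero (AlgebraicClosure K) :=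
    charZero_of_injective_algebraMap (algebraMap K (AlgebraicClosure K)).injective
  obtain ⟨φ, hφ⟩ : ∃ φ : K →+* AlgebraicClosure K, φ = algebraMap K (AlgebraicClosure K) := ⟨_, rfl⟩
  have hφi : Function.Injective φ := φ.injective
  obtain ⟨I, hI⟩ := IsAlgClosed.exists_pow_nat_eq (-1 : AlgebraicClosure K) (n := 2) (by norm_num)
  have hI0 : I ≠ 0 := by
    rintro rfl
    norm_num at hI
  obtain ⟨n, hn⟩ : ∃ n : MvPolynomial τ K, n = ∑ i, C (κ i) * X i ^ N := ⟨_, rfl⟩
  rw [← hn]
  have hn' : map φ n = ∑ i, C (φ (κ i)) * X i ^ N := by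
    rw [hn, map_sum]
    refine Finset.sum_congr rfl fun i _ => ?_
    rw [map_mul, map_pow, map_C, map_X]
  have hirr : ∀ c : AlgebraicClosure K, c ≠ 0 → Irreducible (map φ n + C c) := by
    intro c hc
    have h1' : φ (κ i1) ≠ 0 := (map_ne_zero φ).2 h1
    obtain ⟨ρ, hρ⟩ := IsAlgClosed.exists_pow_nat_eq (-c / φ (κ i1)) hN
    rw [hn']
    refine irrDiag (fun i => φ (κ i)) i0 i1 hi ((map_ne_zero φ).2 h0) h1' c hc hN ρ ?_
    rw [hρ, mul_div_cancel₀ _ h1']
    ring
  have hp := hirr I hI0
  have hm := hirr (-I) (neg_ne_zero.2 hI0)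
  have hmul : map φ (n ^ 2 + 1) = (map φ n + C I) * (map φ n + C (-I)) := by
    rw [map_add, map_pow, map_one, C_neg]
    have h2 : (C I : MvPolynomial τ (AlgebraicClosure K)) ^ 2 = -1 := by
      rw [← C_pow, hI, C_neg, C_1]
    linear_combination h2
  have hconst : ∀ V : MvPolynomial τ K, IsUnit (map φ V) → IsUnit V := by
    intro V hV
    obtain ⟨r, hr, h⟩ := isUnit_mv hV
    have h2 : V = C (coeff 0 V) := by
      ext d
      rw [coeff_C]
      split_ifs with h3
      · rw [← h3]
      · apply hφi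
        rw [← coeff_map, h, coeff_C, if_neg h3, map_zero]
    rw [h2]
    apply IsUnit.map C
    rw [isUnit_iff_ne_zero]
    intro h3
    apply hr
    have h4 : coeff 0 (map φ V) = r := by rw [h, coeff_C, if_pos rfl]
    rw [← h4, coeff_map, h3, map_zero]
  -- a factor divisible by one of the two factors has a unit as cofactor
  have hkey : ∀ U V : MvPolynomial τ K, n ^ 2 + 1 = U * V → ∀ J : AlgebraicClosure K, J ^ 2 = -1 →
      map φ (n ^ 2 + 1) = (map φ n + C J) * (map φ n + C (-J)) → Irreducible (map φ n + C (-J)) →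
      Irreducible (map φ n + C J) → map φ n + C J ∣ map φ U → IsUnit V := by
    intro U V hUV J hJ hmulJ hirJ hirJ' ⟨W, hW⟩
    have h2 : map φ n + C (-J) = W * map φ V := by
      have h3 : (map φ n + C J) * (map φ n + C (-J)) = (map φ n + C J) * (W * map φ V) := by
        rw [← hmulJ, hUV, map_mul, hW]
        ring
      exact mul_left_cancel₀ hirJ'.ne_zero h3
    rcases hirJ.isUnit_or_isUnit h2 with h4 | h4
    · exfalso
      obtain ⟨w, hw, hWw⟩ := isUnit_mv h4
      rw [hWw] at hW
      have hcn : ∀ d, coeff d (map φ U) = (φ (coeff d n) + (if 0 = d then J else 0)) * w := by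
        intro d
        rw [hW, mul_comm, coeff_C_mul, coeff_add, coeff_map, coeff_C]
        ring
      have hn0 : coeff 0 n = 0 := by
        rw [hn, coeff_sum]
        refine Finset.sum_eq_zero fun i _ => ?_
        rw [coeff_C_mul, coeff_X_pow, if_neg, mul_zero]
        intro h5
        have := DFunLike.congr_fun h5 i
        simp at this
        omega
      have hn1 : coeff (Finsupp.single i0 N) n = κ i0 := by
        rw [hn, coeff_sum, Finset.sum_eq_single i0]
        · rw [coeff_C_mul, coeff_X_pow, if_pos rfl, mul_one]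
        · intro i _ hne
          rw [coeff_C_mul, coeff_X_pow, if_neg, mul_zero]
          intro h5
          have := DFunLike.congr_fun h5 i
          rw [Finsupp.single_eq_same, Finsupp.single_eq_of_ne] at this
          · omega
          · exact hne
        · intro h
          exact absurd (Finset.mem_univ _) h
      have h5 := hcn (Finsupp.single i0 N)
      rw [coeff_map, hn1, if_neg, add_zero] at h5
      · have h6 := hcn 0
        rw [coeff_map, hn0, map_zero, zero_add, if_pos rfl] at h6
        -- `J` is in the image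
        apply hK (coeff 0 U * κ i0 / coeff (Finsupp.single i0 N) U)
        apply hφi
        have hκ : φ (κ i0) ≠ 0 := (map_ne_zero φ).2 h0
        have hu : φ (coeff (Finsupp.single i0 N) U) ≠ 0 := by
          rw [h5]
          exact mul_ne_zero hκ hw
        rw [map_pow, map_div₀, map_mul, map_neg, map_one, h6, h5]
        rw [← hJ]
        congr 1
        field_simp
      · intro h7
        have := DFunLike.congr_fun h7 i0
        simp at this
        omega
    · exact hconst V h4
  refine ⟨fun h => ?_, fun U V hUV => ?_⟩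
  · have h2 := h.map (map φ)
    rw [hmul] at h2
    exact hp.not_isUnit (isUnit_of_mul_isUnit_left h2)
  · have hprime := hp.prime
    have h2 : (map φ n + C I) ∣ map φ U * map φ V := by
      rw [← map_mul, ← hUV, hmul]
      exact dvd_mul_right _ _
    rcases hprime.dvd_or_dvd h2 with h3 | h3
    · right
      exact hkey U V hUV I hI hmul hm hp h3
    · left
      exact hkey V U (by rw [hUV, mul_comm]) I hI hmul hm hp h3

end base

end Pool.Agent.H95.SP
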