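import Mathlib
import Pool.Agent.H95.EB.Dv

/-!
# Common divisors of a prime polynomial in unit germs and of sums of unit germs
-/

set_option autoImplicit false

namespace Pool.Agent.H95.SP

open Filter Topology Pool.Agent.TH932.Germs Pool.Agent.TH551.SU Pool.Agent.TH551.SU.WT
open Pool.Agent.Y724.Vj MvPolynomial Pool.Agent.H95.EB

variable {L : ℕ → ℝ}

lemma gm_mem_KK' (hL : Tendsto L atTop atTop) {c : ℕ → ℤ} (hc : Negl L c) :
    gm (fun n => (c n : ℚ)) ∈ KK L hL :=
  ⟨c, fun _ => 1, hc, Negl.one hL, by simp, by congr 1; funext n; simp⟩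

/-- division by a polynomial with constant coefficient `1` preserves subrings of coefficients -/
theorem coeff_mem_of_mul' {K : Type} [Field K] (R : Subring K) {m : ℕ}
    (f H : MvPolynomial (Fin m) K) (hf0 : coeff 0 f = 1) (hf : ∀ d, coeff d f ∈ R)
    (hG : ∀ d, coeff d (f * H) ∈ R) (d : Fin m →₀ ℕ) : coeff d H ∈ R := by
  classical
  induction hn : d.degree using Nat.strong_induction_on generalizing d with
  | _ n ih =>
    have h0 : ((0 : Fin m →₀ ℕ), d) ∈ Finset.HasAntidiagonal.antidiagonal d := by simp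
    have h1 := hG d
    rw [coeff_mul, ← Finset.add_sum_erase _ _ h0, hf0, one_mul] at h1
    have h2 : ∑ x ∈ (Finset.HasAntidiagonal.antidiagonal d).erase (0, d), coeff x.1 f * coeff x.2 H ∈ R := by
      refine R.sum_mem fun x hx => ?_
      rw [Finset.mem_erase, Finset.HasAntidiagonal.mem_antidiagonal] at hx
      refine R.mul_mem (hf _) ?_
      have hx1 : x.1 ≠ 0 := by
        intro h
        apply hx.1
        have h3 := hx.2
        rw [h, zero_add] at h3
        exact Prod.ext h h3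
      refine ih x.2.degree ?_ x.2 rfl
      have h3 : 0 < x.1.degree := by
        rw [pos_iff_ne_zero, Ne, Finsupp.degree_eq_zero_iff]
        exact hx1
      have h4 : x.1.degree + x.2.degree = d.degree := by rw [← map_add, hx.2]
      omega
    have h3 := R.sub_mem h1 h2
    rwa [add_sub_cancel_right] at h3

lemma negl_of_bdd (hL : Tendsto L atTop atTop) {c : ℕ → ℤ} (M : ℝ) (h : ∀ n, |(c n : ℝ)| ≤ M) :
    Negl L c := by
  intro ε hε
  filter_upwards [ev_of_atTop (hL.eventually_ge_atTop (M / ε))] with n hn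
  refine (h n).trans ?_
  have h1 := Real.add_one_le_exp (ε * L n)
  have h2 : M ≤ ε * L n := by rwa [div_le_iff₀' hε] at hn
  linarith

lemma negl_mono {c d : ℕ → ℤ} (h : ∀ n, |(c n : ℝ)| ≤ |(d n : ℝ)|) (hd : Negl L d) :
    Negl L c := by
  intro ε hε
  filter_upwards [hd ε hε] with n hn
  exact (h n).trans hn

variable {s : ℕ} {b : Fin s → ℕ}

/-- the part of a number composed of the primes `b v` -/
lemma exists_part (hb : ∀ v, (b v).Prime) (hbi : Function.Injective b) (F : ℕ) (hF : F ≠ 0) :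
    ∃ F' : ℕ, F = (∏ v, b v ^ (F.factorization (b v))) * F' ∧ ∀ v, Nat.Coprime F' (b v) := by
  classical
  have h1 : (∏ v, b v ^ (F.factorization (b v))) ∣ F := by
    have h2 : ∀ S : Finset (Fin s), (∏ v ∈ S, b v ^ (F.factorization (b v))) ∣ F := by
      intro S
      induction S using Finset.induction_on with
      | empty => simp
      | insert v S hv ih =>
        rw [Finset.prod_insert hv]
        refine Nat.Coprime.mul_dvd_of_dvd_of_dvd ?_ (Nat.ordProj_dvd F (b v)) ih
        refine Nat.Coprime.prod_right fun j hj => ?_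
        apply Nat.Coprime.pow
        rw [Nat.coprime_primes (hb v) (hb j)]
        intro h
        rw [hbi h] at hv
        exact hv hj
    exact h2 Finset.univ
  obtain ⟨F', hF'⟩ := h1
  refine ⟨F', hF', fun v => ?_⟩
  rw [Nat.coprime_comm, (hb v).coprime_iff_not_dvd]
  intro hdvd
  obtain ⟨q, hq⟩ := hdvd
  have h2 : b v ^ (F.factorization (b v) + 1) ∣ F := by
    rw [← Finset.mul_prod_erase Finset.univ _ (Finset.mem_univ v)] at hF'
    refine ⟨(∏ x ∈ Finset.univ.erase v, b x ^ (F.factorization (b x))) * q, ?_⟩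
    conv_lhs => rw [hF', hq]
    ring
  exact Nat.pow_succ_factorization_not_dvd hF (hb v) h2

/-- the values of polynomials with constant coefficient `1` have negligible unit part -/
theorem part_negl (hb : ∀ v, (b v).Prime) (hbi : Function.Injective b)
    (hL : Tendsto L atTop atTop) {m : ℕ} (T : Fin m → ℕ → ℚ) (hT : ∀ j n, IsSU b (T j n))
    (hTB : ∀ j, Bd L (gm (T j)))
    (hind : ∀ z : Fin m → ℤ, mon (fun j => gm (T j)) z ∈ KK L hL → z = 0)
    (f : MvPolynomial (Fin m) (KK L hL)) (hf0 : coeff 0 f = 1) (F : ℕ → ℕ) (hF0 : ∀ n, F n ≠ 0)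
    (hF : gm (fun n => (F n : ℚ)) = aeval (fun k => gm (T k)) f) (v : Fin s) :
    Negl L (fun n => ((b v ^ ((F n).factorization (b v)) : ℕ) : ℤ)) := by
  classical
  have hT0 : ∀ j, gm (T j) ≠ 0 := fun j => gsu_ne_zero hb ⟨T j, rfl, hT j⟩
  have h0s : (0 : Fin m →₀ ℕ) ∈ f.support := by
    rw [mem_support_iff, hf0]
    exact one_ne_zero
  obtain ⟨N, hN⟩ : ∃ N : ℕ, f.support.card = N + 1 :=
    Nat.exists_eq_succ_of_ne_zero (Finset.card_ne_zero_of_mem h0s)
  obtain ⟨e⟩ : Nonempty (Fin (N + 1) ≃ f.support) := ⟨(f.support.equivFinOfCardEq hN).symm⟩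
  obtain ⟨U, hU⟩ : ∃ U : Fin (N + 1) → GG,
    U = fun i => mon (fun j => gm (T j)) (fun j => ((e i).1 j : ℤ)) := ⟨_, rfl⟩
  have h1 : ∀ i, GSU b (U i) := fun i => by
    rw [hU]
    simp only
    rw [← gm_mseq]
    exact ⟨_, rfl, fun n => mseq_su hb hT _ n⟩
  have h2 : ∀ i i', i ≠ i' → U i / U i' ∉ KK L hL := by
    intro i i' hii h3
    rw [hU] at h3
    simp only at h3
    rw [← mon_sub hT0] at h3
    have h4 := hind _ h3
    apply hii
    apply e.injective
    apply Subtype.ext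
    ext j
    have h5 := congrFun h4 j
    simp only [Pi.zero_apply] at h5
    omega
  have h3 : ∀ i i', Bd L (U i / U i') := by
    intro i i'
    rw [hU]
    simp only
    rw [← mon_sub hT0]
    exact Bd.mon' hL hTB hT0 _
  have h4 : ∑ i, ((coeff (e i).1 f : KK L hL) : GG) * U i = gm (fun n => (F n : ℚ)) := by
    rw [hF, aeval_def, eval₂_eq']
    rw [← Finset.sum_coe_sort f.support, ← e.sum_comp]
    refine Finset.sum_congr rfl fun i _ => ?_
    congr 1
    rw [hU]
    unfold mon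
    simp only [zpow_natCast]
  have h5 := lb b hb hbi hL U h1 h2 h3 (fun i => coeff (e i).1 f)
    (fun i => mem_support_iff.1 (e i).2) (some v) (e.symm ⟨0, h0s⟩)
  rw [h4] at h5
  have h6 : U (e.symm ⟨0, h0s⟩) = gm (fun _ => 1) := by
    rw [hU, gm_one]
    simp [mon]
  rw [h6] at h5
  have hfact := Fact.mk (hb v)
  intro ε hε
  filter_upwards [val_le hL (wv b hb (some v)) h5 ε hε] with n hn
  have h7 : wv b hb (some v) ((F n : ℕ) : ℚ) =
      ((b v : ℝ) ^ ((F n).factorization (b v)))⁻¹ := by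
    change Rat.AbsoluteValue.padic (b v) ((F n : ℕ) : ℚ) = _
    have h8 : ((F n : ℕ) : ℚ) ≠ 0 := by exact_mod_cast hF0 n
    rw [Rat.AbsoluteValue.padic_eq_padicNorm, padicNorm.eq_zpow_of_nonzero h8, padicValRat.of_nat,
      Nat.factorization_def _ (hb v), zpow_neg, zpow_natCast]
    push_cast
    rfl
  rw [h7, map_one] at hn
  have hpos : (0 : ℝ) < (b v : ℝ) ^ ((F n).factorization (b v)) := by
    have := (hb v).pos
    positivity
  push_cast
  rw [abs_of_pos hpos]
  rwa [inv_mul_eq_div, le_div_iff₀ hpos, one_mul] at hn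

/-- **The dichotomy for germs.** -/
theorem germ_gen (hb : ∀ v, (b v).Prime) (hbi : Function.Injective b)
    (hL : Tendsto L atTop atTop) {m : ℕ} (T : Fin m → ℕ → ℚ) (hT : ∀ j n, IsSU b (T j n))
    (hTB : ∀ j, Bd L (gm (T j)))
    (hind : ∀ z : Fin m → ℤ, mon (fun j => gm (T j)) z ∈ KK L hL → z = 0)
    (f : MvPolynomial (Fin m) (KK L hL)) (hfp : Prime f) (hf0 : coeff 0 f = 1)
    (hfR : ∀ d, ((coeff d f : KK L hL) : GG) ∈ RS b) (F : ℕ → ℕ) (hF0 : ∀ n, F n ≠ 0)
    (hF : gm (fun n => (F n : ℚ)) = aeval (fun k => gm (T k)) f) (A : ℝ)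
    (hFA : ∀ᶠ n in (UU : Filter ℕ), (F n : ℝ) ≤ Real.exp (A * L n))
    (G : MvPolynomial (Fin m) (KK L hL)) (hGR : ∀ d, ((coeff d G : KK L hL) : GG) ∈ RS b)
    (w : Fin m → ℤ) (z : ℕ → ℤ)
    (hG : aeval (fun k => gm (T k)) G =
      gm (fun n => (z n : ℚ)) * mon (fun j => gm (T j)) w) :
    (∀ᶠ n in (UU : Filter ℕ), ∃ N : ℕ, (F n : ℤ) ∣ z n * ((∏ v, b v : ℕ) : ℤ) ^ N) ∨
      Negl L (fun n => (Int.gcd (z n) (F n : ℤ) : ℤ)) := by
  classical
  have hT0 : ∀ j, gm (T j) ≠ 0 := fun j => gsu_ne_zero hb ⟨T j, rfl, hT j⟩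
  by_cases hdiv : f ∣ G
  · left
    obtain ⟨H, hH⟩ := hdiv
    obtain ⟨R, hR⟩ : ∃ R : Subring (KK L hL), R = (RS b).comap (algebraMap (KK L hL) GG) := ⟨_, rfl⟩
    have hmR : ∀ x : KK L hL, x ∈ R ↔ (x : GG) ∈ RS b := fun x => by rw [hR]; rfl
    have hmonR : ∀ w : Fin m → ℤ, mon (fun j => gm (T j)) w ∈ RS b := fun w => by
      rw [← gm_mseq]
      exact RS_su hb (fun n => mseq_su hb hT _ n)
    have hmon_neg : ∀ w : Fin m → ℤ, (mon (fun j => gm (T j)) w)⁻¹ =
        mon (fun j => gm (T j)) (fun j => - w j) := by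
      intro w
      unfold mon
      rw [← Finset.prod_inv_distrib]
      exact Finset.prod_congr rfl fun j _ => (zpow_neg _ _).symm
    have hHR : ∀ d, coeff d H ∈ R := by
      refine coeff_mem_of_mul' R f H hf0 (fun d => (hmR _).2 (hfR d)) ?_
      rw [← hH]
      exact fun d => (hmR _).2 (hGR d)
    have hevH : aeval (fun k => gm (T k)) H ∈ RS b := by
      rw [aeval_def, eval₂_eq']
      refine (RS b).sum_mem fun d _ => (RS b).mul_mem ((hmR _).1 (hHR d)) ?_
      exact (RS b).prod_mem fun j _ => (RS b).pow_mem (RS_su hb (hT j)) _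
    have h1 := hG
    rw [hH, map_mul, ← hF] at h1
    have hFn0 : gm (fun n => (F n : ℚ)) ≠ 0 := by
      rw [gm_ne_zero]
      exact Eventually.of_forall fun n => by exact_mod_cast hF0 n
    have hmB0 : mon (fun j => gm (T j)) w ≠ 0 := by
      rw [← gm_mseq]
      exact gsu_ne_zero hb ⟨_, rfl, fun n => mseq_su hb hT _ n⟩
    have h2 : gm (fun n => (z n : ℚ) / (F n : ℚ)) =
        aeval (fun k => gm (T k)) H * mon (fun j => gm (T j)) (fun j => - w j) := by
      rw [← hmon_neg w, ← gm_div, div_eq_iff hFn0]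
      field_simp
      rw [← h1]
      ring
    have h3 : gm (fun n => (z n : ℚ) / (F n : ℚ)) ∈ RS b := by
      rw [h2]
      exact (RS b).mul_mem hevH (hmonR _)
    rw [mem_RS] at h3
    filter_upwards [h3] with n hn
    obtain ⟨N, w, hw⟩ := hn
    refine ⟨N, w, ?_⟩
    have h5 : (F n : ℚ) ≠ 0 := by exact_mod_cast hF0 n
    have h6 : (z n * ((∏ v, b v : ℕ) : ℤ) ^ N : ℚ) = ((F n : ℤ) : ℚ) * w := by
      rw [← hw]
      push_cast at h5 ⊢
      field_simp
    exact_mod_cast h6
  · right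
    have hrp : IsRelPrime f G := (hfp.irreducible.isRelPrime_iff_not_dvd).2 hdiv
    have hG0 : G ≠ 0 := by
      rintro h
      exact hdiv (h ▸ dvd_zero f)
    choose F' hF' hcop using fun n => exists_part hb hbi (F n) (hF0 n)
    obtain ⟨B, hB⟩ : ∃ B : ℕ → ℕ, B = fun n => ∏ v, b v ^ ((F n).factorization (b v)) := ⟨_, rfl⟩
    have hFB : ∀ n, F n = B n * F' n := fun n => by rw [hB]; exact hF' n
    have hBn : Negl L (fun n => (B n : ℤ)) := by
      have h1 : ∀ S : Finset (Fin s),
          Negl L (fun n => ((∏ v ∈ S, b v ^ ((F n).factorization (b v)) : ℕ) : ℤ)) := by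
        intro S
        induction S using Finset.induction_on with
        | empty => simpa using Negl.one hL
        | insert v S hv ih =>
          have h2 := (part_negl hb hbi hL T hT hTB hind f hf0 F hF0 hF v).mul ih
          simpa [Finset.prod_insert hv] using h2
      rw [hB]
      exact h1 Finset.univ
    obtain ⟨D, hD⟩ : ∃ D : ℕ → ℕ, D = fun n => Int.gcd (z n) (F' n : ℤ) := ⟨_, rfl⟩
    have hDF : ∀ n, D n ∣ F' n := by
      intro n
      rw [hD]
      have := Int.gcd_dvd_right (z n) (F' n : ℤ)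
      exact_mod_cast this
    have hDz : ∀ n, (D n : ℤ) ∣ z n := by
      intro n
      rw [hD]
      exact Int.gcd_dvd_left (z n) (F' n : ℤ)
    have hF'0 : ∀ n, F' n ≠ 0 := by
      intro n h
      have := hFB n
      rw [h, mul_zero] at this
      exact hF0 n this
    have hD0 : ∀ n, D n ≠ 0 := fun n h0 => by
      have h1 := hDF n
      rw [h0, zero_dvd_iff] at h1
      exact hF'0 n h1
    choose F'' hF'' using hDF
    choose z' hz' using hDz
    have hind' := alg_ind hb hbi hL T hT hind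
    have h1 := gcd_germ b hb hbi hL T hT hTB hind' f G hfp.ne_zero hG0 hrp D hD0
      (fun n v => Nat.Coprime.coprime_dvd_left ⟨F'' n, hF'' n⟩ (hcop n v)) A
      (by
        filter_upwards [hFA] with n hn
        have h2 : D n ≤ F n := by
          refine Nat.le_of_dvd (Nat.pos_of_ne_zero (hF0 n)) ?_
          rw [hFB n]
          exact Dvd.dvd.mul_left ⟨F'' n, hF'' n⟩ _
        have h3 : ((D n : ℕ) : ℝ) ≤ (F n : ℝ) := by exact_mod_cast h2
        exact h3.trans hn)
      (by
        rw [← hF, gm_mul]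
        have h2 : (fun n => 1 / (D n : ℚ) * (F n : ℚ)) =
            fun n => (((B n * F'' n : ℕ) : ℤ) : ℚ) := by
          funext n
          have h3 : (D n : ℚ) ≠ 0 := by exact_mod_cast hD0 n
          rw [hFB n, hF'' n]
          push_cast
          field_simp
        rw [h2]
        exact Sg.int hL _)
      (by
        rw [hG, ← mul_assoc, gm_mul]
        have h2 : (fun n => 1 / (D n : ℚ) * (z n : ℚ)) = fun n => ((z' n : ℤ) : ℚ) := by
          funext n
          have h3 : (D n : ℚ) ≠ 0 := by exact_mod_cast hD0 n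
          rw [hz' n]
          push_cast
          field_simp
        rw [h2]
        refine Sg.mul (Sg.int hL _) ?_
        rw [← gm_mseq]
        refine Sg.of_su b hb hbi hL (fun n => mseq_su hb hT _ n) ?_
        rw [gm_mseq]
        exact Bd.mon' hL hTB hT0 _)
    refine negl_mono (fun n => ?_) (hBn.mul h1)
    have h2 : Int.gcd (z n) (F n : ℤ) ≤ B n * D n := by
      have h3 : Int.gcd (z n) (F n : ℤ) ∣ B n * D n := by
        have h4 : Int.gcd (z n) ((B n : ℤ) * (F' n : ℤ)) ∣
            Int.gcd (z n) (B n : ℤ) * Int.gcd (z n) (F' n : ℤ) :=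
          Int.gcd_mul_right_dvd_mul_gcd _ _ _
        have h5 : (F n : ℤ) = (B n : ℤ) * (F' n : ℤ) := by rw [hFB n]; push_cast; rfl
        rw [h5, hD]
        refine h4.trans (mul_dvd_mul ?_ dvd_rfl)
        have := Int.gcd_dvd_right (z n) (B n : ℤ)
        exact_mod_cast this
      refine Nat.le_of_dvd (Nat.mul_pos (Nat.pos_of_ne_zero ?_) (Nat.pos_of_ne_zero (hD0 n))) h3
      intro h6
      have := hFB n
      rw [h6, zero_mul] at this
      exact hF0 n this
    have h3 : ((Int.gcd (z n) (F n : ℤ) : ℕ) : ℝ) ≤ (B n : ℝ) * (D n : ℝ) := by exact_mod_cast h2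
    push_cast
    rw [abs_of_nonneg (Nat.cast_nonneg _), abs_of_nonneg (by positivity)]
    exact h3

/-- the polynomial of a short sum of unit germs -/
lemma exG (hb : ∀ v, (b v).Prime) (hL : Tendsto L atTop atTop) {m : ℕ} (T : Fin m → ℕ → ℚ)
    (hT : ∀ j n, IsSU b (T j n)) {k : ℕ} (c : Fin k → ℕ → ℤ) (hc : ∀ i, Negl L (c i))
    (u : Fin k → ℕ → ℚ) (hu : ∀ i n, IsSU b (u i n)) (A : Fin k → Fin m → ℤ)
    (hA : ∀ i, gm (u i) / mon (fun j => gm (T j)) (A i) ∈ KK L hL) (z : ℕ → ℤ)
    (hz : ∀ n, (z n : ℚ) = ∑ i, c i n * u i n) :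
    ∃ (G : MvPolynomial (Fin m) (KK L hL)) (w : Fin m → ℤ),
      (∀ d, ((coeff d G : KK L hL) : GG) ∈ RS b) ∧
      aeval (fun k => gm (T k)) G = gm (fun n => (z n : ℚ)) * mon (fun j => gm (T j)) w := by
  classical
  have hT0 : ∀ j, gm (T j) ≠ 0 := fun j => gsu_ne_zero hb ⟨T j, rfl, hT j⟩
  have hm0 : ∀ w : Fin m → ℤ, mon (fun j => gm (T j)) w ≠ 0 := fun w => by
    rw [← gm_mseq]
    exact gsu_ne_zero hb ⟨_, rfl, fun n => mseq_su hb hT _ n⟩
  have hκ : ∀ i : Fin k, ∃ κ : KK L hL, (κ : GG) * mon (fun j => gm (T j)) (A i) = gm (u i) :=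
    fun i => ⟨⟨_, hA i⟩, div_mul_cancel₀ _ (hm0 _)⟩
  choose κ hκ using hκ
  have hcK : ∀ i, ∃ e : KK L hL, (e : GG) = gm (fun n => (c i n : ℚ)) := fun i =>
    ⟨⟨_, gm_mem_KK' hL (hc i)⟩, rfl⟩
  choose e he using hcK
  obtain ⟨B, hBA⟩ : ∃ B : ℕ, ∀ i j, (A i j).natAbs ≤ B := by
    refine ⟨∑ i, ∑ j, (A i j).natAbs, fun i j => ?_⟩
    calc (A i j).natAbs ≤ ∑ j, (A i j).natAbs :=
          Finset.single_le_sum (f := fun j => (A i j).natAbs) (fun _ _ => Nat.zero_le _)
            (Finset.mem_univ j)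
      _ ≤ _ := Finset.single_le_sum (f := fun i => ∑ j, (A i j).natAbs)
            (fun _ _ => Nat.zero_le _) (Finset.mem_univ i)
  refine ⟨∑ i : Fin k, C (e i * κ i) *
    monomial (Finsupp.equivFunOnFinite.symm fun j => (A i j + B).toNat) 1, fun _ => (B : ℤ), ?_, ?_⟩
  · obtain ⟨R, hR⟩ : ∃ R : Subring (KK L hL), R = (RS b).comap (algebraMap (KK L hL) GG) := ⟨_, rfl⟩
    have hmR : ∀ x : KK L hL, x ∈ R ↔ (x : GG) ∈ RS b := fun x => by rw [hR]; rfl
    have hmonR : ∀ w : Fin m → ℤ, mon (fun j => gm (T j)) w ∈ RS b := fun w => by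
      rw [← gm_mseq]
      exact RS_su hb (fun n => mseq_su hb hT _ n)
    have hmon_neg : ∀ w : Fin m → ℤ, (mon (fun j => gm (T j)) w)⁻¹ =
        mon (fun j => gm (T j)) (fun j => - w j) := by
      intro w
      unfold mon
      rw [← Finset.prod_inv_distrib]
      exact Finset.prod_congr rfl fun j _ => (zpow_neg _ _).symm
    have hκR : ∀ i, κ i ∈ R := by
      intro i
      rw [hmR]
      have h1 : (κ i : GG) = gm (u i) * mon (fun j => gm (T j)) (fun j => - A i j) := by
        rw [← hmon_neg, ← hκ i, mul_assoc, mul_inv_cancel₀ (hm0 _), mul_one]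
      rw [h1]
      exact (RS b).mul_mem (RS_su hb (hu i)) (hmonR _)
    have heR : ∀ i, e i ∈ R := fun i => by
      rw [hmR, he]
      exact RS_int _
    intro d
    rw [← hmR, coeff_sum]
    refine R.sum_mem fun i _ => ?_
    rw [coeff_C_mul, coeff_monomial]
    split_ifs
    · rw [mul_one]
      exact R.mul_mem (heR i) (hκR i)
    · rw [mul_zero]
      exact R.zero_mem
  · have hmonB : ∀ i : Fin k, (∏ j, gm (T j) ^ ((A i j + B).toNat)) =
        mon (fun j => gm (T j)) (A i) * mon (fun j => gm (T j)) (fun _ => (B : ℤ)) := by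
      intro i
      rw [← mon_add hT0]
      unfold mon
      refine Finset.prod_congr rfl fun j _ => ?_
      have h1 := hBA i j
      rw [← zpow_natCast, Int.toNat_of_nonneg (by omega)]
    have h1 : gm (fun n => (z n : ℚ)) = ∑ i, gm (fun n => (c i n : ℚ)) * gm (u i) := by
      simp only [hz]
      rw [gm_sum]
      rfl
    rw [map_sum, h1, Finset.sum_mul]
    refine Finset.sum_congr rfl fun i _ => ?_
    rw [map_mul, aeval_C, aeval_monomial, map_one, one_mul,
      Finsupp.prod_fintype _ _ (fun _ => pow_zero _)]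
    have h2 : ∏ j, gm (T j) ^ ((Finsupp.equivFunOnFinite.symm fun j => (A i j + B).toNat) j) =
        ∏ j, gm (T j) ^ ((A i j + B).toNat) := rfl
    rw [h2, hmonB, ← hκ i, ← he i, map_mul]
    have h3 : ∀ x : KK L hL, algebraMap (KK L hL) GG x = (x : GG) := fun _ => rfl
    rw [h3, h3]
    ring

end Pool.Agent.H95.SP
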