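import Mathlib
import Pool.Agent.H95.SP.Gen

/-!
# Roots of unit germs; parameters adapted to independent unit germs
-/

set_option autoImplicit false

namespace Pool.Agent.H95.SP

open Filter Topology Pool.Agent.TH932.Germs Pool.Agent.TH551.SU Pool.Agent.TH551.SU.WT
open Pool.Agent.Y724.Vj MvPolynomial Pool.Agent.H95.EB

variable {L : ℕ → ℝ}

lemma bd_of_KK (hL : Tendsto L atTop atTop) {g : GG} (hg : g ∈ KK L hL) : Bd L g := by
  obtain ⟨m, d, hm, hd, hd0, rfl⟩ := hg
  refine ⟨m, d, 1, hm 1 one_pos, hd 1 one_pos, hd0, rfl⟩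

lemma bd_root {r : ℕ → ℚ} {N : ℕ} (hN : 0 < N) (hL : Tendsto L atTop atTop)
    (h : Bd L (gm r ^ N)) : Bd L (gm r) := by
  obtain ⟨m, d, A, h1, h2, h3, h4⟩ := h
  rw [gm_pow, gm_eq] at h4
  have hpow : ∀ x : ℕ, x ≤ x ^ N := fun x => Nat.le_self_pow hN.ne' x
  refine ⟨fun n => (r n).num, fun n => ((r n).den : ℤ), |A|, ?_, ?_, ?_, ?_⟩
  · filter_upwards [h1, h2, h3, h4, L_nonneg hL] with n g1 g2 g3 g4 g5
    have h5 : (r n ^ N).num ∣ m n := by
      rw [g4, ← Rat.divInt_eq_div]
      exact Rat.num_dvd _ g3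
    by_cases hm : m n = 0
    · have h6 : r n = 0 := by
        rw [hm, Int.cast_zero, zero_div] at g4
        exact pow_eq_zero_iff hN.ne' |>.1 g4
      rw [h6]
      simpa using (Real.exp_pos _).le
    · have h6 : ((r n).num.natAbs) ^ N ∣ (m n).natAbs := by
        rw [Rat.num_pow] at h5
        rw [← Int.natAbs_pow]
        exact Int.natAbs_dvd_natAbs.2 h5
      have h7 := Nat.le_of_dvd (Int.natAbs_pos.2 hm) h6
      have h8 : ((r n).num.natAbs : ℝ) ≤ ((m n).natAbs : ℝ) := by
        exact_mod_cast (hpow _).trans h7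
      have h9 : |((r n).num : ℝ)| = ((r n).num.natAbs : ℝ) := by
        rw [← Int.cast_natCast, Int.natCast_natAbs, Int.cast_abs]
      have h10 : |(m n : ℝ)| = ((m n).natAbs : ℝ) := by
        rw [← Int.cast_natCast, Int.natCast_natAbs, Int.cast_abs]
      rw [h9]
      refine h8.trans (h10 ▸ g1.trans ?_)
      apply Real.exp_le_exp.2
      exact mul_le_mul_of_nonneg_right (le_abs_self A) g5
  · filter_upwards [h1, h2, h3, h4, L_nonneg hL] with n g1 g2 g3 g4 g5
    have h5 : ((r n ^ N).den : ℤ) ∣ d n := by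
      rw [g4, ← Rat.divInt_eq_div]
      exact Rat.den_dvd _ _
    have h6 : (r n).den ^ N ∣ (d n).natAbs := by
      rw [Rat.den_pow] at h5
      exact Int.natCast_dvd.1 h5
    have h7 := Nat.le_of_dvd (Int.natAbs_pos.2 g3) h6
    have h8 : ((r n).den : ℝ) ≤ ((d n).natAbs : ℝ) := by
      exact_mod_cast (hpow _).trans h7
    have h10 : |(d n : ℝ)| = ((d n).natAbs : ℝ) := by
      rw [← Int.cast_natCast, Int.natCast_natAbs, Int.cast_abs]
    rw [Int.cast_natCast, abs_of_nonneg (Nat.cast_nonneg _)]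
    refine h8.trans (h10 ▸ g2.trans ?_)
    apply Real.exp_le_exp.2
    exact mul_le_mul_of_nonneg_right (le_abs_self A) g5
  · refine Eventually.of_forall fun n => ?_
    show ((r n).den : ℤ) ≠ 0
    exact_mod_cast (r n).den_ne_zero
  · congr 1
    funext n
    rw [Int.cast_natCast, Rat.num_div_den]

variable {s : ℕ} {b : Fin s → ℕ}

/-- approximate roots of unit germs -/
lemma root_su (hb : ∀ v, (b v).Prime) (hL : Tendsto L atTop atTop) (g : ℕ → ℚ)
    (hg : ∀ n, IsSU b (g n)) {N : ℕ} (hN : 0 < N) :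
    ∃ r : ℕ → ℚ, (∀ n, IsSU b (r n)) ∧ gm g / gm r ^ N ∈ KK L hL := by
  have hg' := hg
  choose σ e hσ he using hg'
  have hb0 : ∀ v, (b v : ℚ) ≠ 0 := fun v => by exact_mod_cast (hb v).ne_zero
  refine ⟨fun n => ∏ v, (b v : ℚ) ^ (e n v / N), fun n => ⟨1, fun v => e n v / N, Or.inl rfl, by simp⟩,
    ?_⟩
  obtain ⟨c, hc⟩ : ∃ c : ℕ → ℤ, c = fun n => σ n * ∏ v, (b v : ℤ) ^ (e n v % N).toNat := ⟨_, rfl⟩
  have hNz : (N : ℤ) ≠ 0 := by exact_mod_cast hN.ne'
  have h1 : gm g / gm (fun n => ∏ v, (b v : ℚ) ^ (e n v / N)) ^ N = gm (fun n => (c n : ℚ)) := by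
    rw [gm_pow, gm_div]
    congr 1
    funext n
    rw [hc, he n, ← Finset.prod_pow, mul_div_assoc, ← Finset.prod_div_distrib]
    push_cast
    congr 1
    refine Finset.prod_congr rfl fun v _ => ?_
    rw [← zpow_natCast, ← zpow_natCast, ← zpow_mul, ← zpow_sub₀ (hb0 v),
      Int.toNat_of_nonneg (Int.emod_nonneg _ hNz)]
    congr 1
    have := Int.emod_add_mul_ediv (e n v) N
    linarith
  rw [h1]
  apply gm_mem_KK' hL
  refine negl_of_bdd hL ((∏ v, b v ^ N : ℕ) : ℝ) fun n => ?_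
  rw [hc]
  push_cast
  rw [abs_mul, Finset.abs_prod]
  have h2 : |((σ n : ℤ) : ℝ)| = 1 := by rcases hσ n with h | h <;> simp [h]
  rw [h2, one_mul]
  refine Finset.prod_le_prod (fun v _ => abs_nonneg _) fun v _ => ?_
  rw [abs_pow, abs_of_nonneg (Nat.cast_nonneg _)]
  apply pow_le_pow_right₀
  · exact_mod_cast (hb v).one_lt.le
  · have h3 := Int.emod_lt_of_pos (e n v) (by exact_mod_cast hN : (0 : ℤ) < N)
    have h4 := Int.emod_nonneg (e n v) hNz
    omega

lemma KK_mon (hL : Tendsto L atTop atTop) {r : ℕ} (u v : Fin r → GG)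
    (h : ∀ i, u i / v i ∈ KK L hL) (z : Fin r → ℤ) : mon u z / mon v z ∈ KK L hL := by
  unfold mon
  rw [← Finset.prod_div_distrib]
  refine (KK L hL).prod_mem fun i _ => ?_
  rw [← div_zpow]
  exact (KK L hL).zpow_mem (h i) _

/-- **Parameters adapted to independent unit germs.** -/
theorem exists_param2 (hb : ∀ v, (b v).Prime) (hL : Tendsto L atTop atTop) {k l : ℕ}
    (g : Fin k → ℕ → ℚ) (hg : ∀ i n, IsSU b (g i n)) (hgB : ∀ i, Bd L (gm (g i)))
    (hgi : ∀ z : Fin k → ℤ, mon (fun i => gm (g i)) z ∈ KK L hL → z = 0)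
    (h : Fin l → ℕ → ℚ) (hh : ∀ i n, IsSU b (h i n)) (hhB : ∀ i, Bd L (gm (h i))) :
    ∃ (m : ℕ) (T : Fin m → ℕ → ℚ) (ι : Fin k → Fin m) (N : ℕ), 0 < N ∧ Function.Injective ι ∧
      (∀ j n, IsSU b (T j n)) ∧ (∀ j, Bd L (gm (T j))) ∧
      (∀ i, gm (g i) / gm (T (ι i)) ^ N ∈ KK L hL) ∧
      (∀ j, ∃ A : Fin m → ℤ, gm (h j) / mon (fun i => gm (T i)) A ∈ KK L hL) ∧
      (∀ z : Fin m → ℤ, mon (fun j => gm (T j)) z ∈ KK L hL → z = 0) := by
  classical
  have hg0 : ∀ i, gm (g i) ≠ 0 := fun i => gsu_ne_zero hb ⟨g i, rfl, hg i⟩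
  have hh0 : ∀ i, gm (h i) ≠ 0 := fun i => gsu_ne_zero hb ⟨h i, rfl, hh i⟩
  have hmg0 : ∀ z : Fin k → ℤ, mon (fun i => gm (g i)) z ≠ 0 := fun z => by
    unfold mon; exact Finset.prod_ne_zero_iff.2 fun i _ => zpow_ne_zero _ (hg0 i)
  have hmh0 : ∀ z : Fin l → ℤ, mon (fun i => gm (h i)) z ≠ 0 := fun z => by
    unfold mon; exact Finset.prod_ne_zero_iff.2 fun i _ => zpow_ne_zero _ (hh0 i)
  obtain ⟨Ind, hInd⟩ : ∃ Ind : Finset (Fin l) → Prop, Ind = fun J => ∀ (z : Fin k → ℤ)
    (y : Fin l → ℤ), (∀ j, j ∉ J → y j = 0) →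
      mon (fun i => gm (g i)) z * mon (fun i => gm (h i)) y ∈ KK L hL → z = 0 ∧ y = 0 := ⟨_, rfl⟩
  have hI0 : Ind ∅ := by
    rw [hInd]
    intro z y hy hzy
    have h1 : y = 0 := by
      funext j
      exact hy j (by simp)
    refine ⟨?_, h1⟩
    rw [h1] at hzy
    have h2 : mon (fun i => gm (h i)) (0 : Fin l → ℤ) = 1 := by simp [mon]
    rw [h2, mul_one] at hzy
    exact hgi z hzy
  obtain ⟨J, hJ, hJmax⟩ := (Finset.univ.filter Ind).exists_max_image Finset.card
    ⟨∅, by simp [hI0]⟩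
  have hJI : Ind J := (Finset.mem_filter.1 hJ).2
  -- the relations
  have hrel : ∀ j, ∃ (a : ℕ) (z : Fin k → ℤ) (y : Fin l → ℤ), 0 < a ∧ (∀ i, i ∉ J → y i = 0) ∧
      gm (h j) ^ a / (mon (fun i => gm (g i)) z * mon (fun i => gm (h i)) y) ∈ KK L hL := by
    intro j
    by_cases hj : j ∈ J
    · refine ⟨1, 0, fun i => if i = j then 1 else 0, one_pos, ?_, ?_⟩
      · intro i hi
        show (if i = j then (1 : ℤ) else 0) = 0
        rw [if_neg]
        rintro rfl
        exact hi hj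
      · have h2 : mon (fun i => gm (g i)) (0 : Fin k → ℤ) = 1 := by simp [mon]
        rw [h2, mon_single, one_mul, pow_one, div_self (hh0 j)]
        exact (KK L hL).one_mem
    · have hnot : ¬ Ind (insert j J) := by
        intro hI
        have h1 := hJmax (insert j J) (by simp [hI])
        rw [Finset.card_insert_of_notMem hj] at h1
        omega
      rw [hInd] at hnot
      push Not at hnot
      obtain ⟨z, y, hy, hzy, hne⟩ := hnot
      have hyj : y j ≠ 0 := by
        intro h0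
        rw [hInd] at hJI
        have h1 := hJI z y (by
          intro i hi
          by_cases hij : i = j
          · rw [hij]; exact h0
          · exact hy i (by simp [hij, hi])) hzy
        exact hne h1.1 h1.2
      obtain ⟨y', hy'⟩ : ∃ y' : Fin l → ℤ, y' = fun i => if i = j then 0 else y i := ⟨_, rfl⟩
      have hy'J : ∀ i, i ∉ J → y' i = 0 := by
        intro i hi
        rw [hy']
        by_cases hij : i = j
        · simp [hij]
        · simp only [if_neg hij]
          exact hy i (by simp [hij, hi])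
      have hsplit : mon (fun i => gm (h i)) y = gm (h j) ^ (y j) * mon (fun i => gm (h i)) y' := by
        unfold mon
        rw [← Finset.mul_prod_erase Finset.univ _ (Finset.mem_univ j),
          ← Finset.mul_prod_erase Finset.univ (fun i => gm (h i) ^ (y' i)) (Finset.mem_univ j)]
        have h1 : y' j = 0 := by rw [hy']; simp
        rw [h1, zpow_zero, one_mul]
        congr 1
        refine Finset.prod_congr rfl fun i hi => ?_
        rw [hy']
        simp only [if_neg (Finset.ne_of_mem_erase hi)]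
      have hneg : ∀ w : Fin l → ℤ, mon (fun i => gm (h i)) (fun i => - w i) =
          (mon (fun i => gm (h i)) w)⁻¹ := by
        intro w
        unfold mon
        rw [← Finset.prod_inv_distrib]
        exact Finset.prod_congr rfl fun i _ => zpow_neg _ _
      have hnegg : ∀ w : Fin k → ℤ, mon (fun i => gm (g i)) (fun i => - w i) =
          (mon (fun i => gm (g i)) w)⁻¹ := by
        intro w
        unfold mon
        rw [← Finset.prod_inv_distrib]
        exact Finset.prod_congr rfl fun i _ => zpow_neg _ _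
      rcases lt_or_gt_of_ne hyj with hlt | hgt
      · refine ⟨(y j).natAbs, z, y', Int.natAbs_pos.2 hyj, hy'J, ?_⟩
        have h1 := (KK L hL).inv_mem hzy
        convert h1 using 1
        rw [hsplit]
        have h2 : gm (h j) ^ (y j) = (gm (h j) ^ (y j).natAbs)⁻¹ := by
          rw [← zpow_natCast, ← zpow_neg]
          congr 1
          omega
        rw [h2]
        rw [mul_inv, mul_inv, inv_inv, div_eq_mul_inv, mul_inv]
        ring
      · refine ⟨(y j).natAbs, fun i => - z i, fun i => - y' i, Int.natAbs_pos.2 hyj, ?_, ?_⟩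
        · intro i hi
          simp [hy'J i hi]
        · convert hzy using 1
          rw [hsplit, hneg, hnegg]
          have h2 : gm (h j) ^ (y j) = (gm (h j) ^ (y j).natAbs) := by
            rw [← zpow_natCast]
            congr 1
            omega
          rw [h2, div_eq_mul_inv, mul_inv, inv_inv, inv_inv]
          ring
  choose a z y ha hyJ hzy using hrel
  obtain ⟨N, hN⟩ : ∃ N : ℕ, N = ∏ j, a j := ⟨_, rfl⟩
  have hN0 : 0 < N := by rw [hN]; exact Finset.prod_pos fun j _ => ha j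
  have hadvd : ∀ j, a j ∣ N := fun j => by rw [hN]; exact Finset.dvd_prod_of_mem _ (Finset.mem_univ j)
  choose q hq using hadvd
  -- the roots
  choose rg hrg hrgK using fun i => root_su hb hL (g i) (hg i) hN0
  choose rh hrh hrhK using fun i => root_su hb hL (h i) (hh i) hN0
  obtain ⟨m, hm⟩ : ∃ m : ℕ, Fintype.card (Fin k ⊕ J) = m := ⟨_, rfl⟩
  obtain ⟨e⟩ : Nonempty (Fin m ≃ (Fin k ⊕ J)) := ⟨(Fintype.equivFinOfCardEq hm).symm⟩
  obtain ⟨T, hT⟩ : ∃ T : Fin m → ℕ → ℚ, T = fun t => Sum.elim rg (fun j : J => rh j) (e t) :=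
    ⟨_, rfl⟩
  have hTl : ∀ i, T (e.symm (Sum.inl i)) = rg i := fun i => by rw [hT]; simp
  have hTr : ∀ j : J, T (e.symm (Sum.inr j)) = rh j := fun j => by rw [hT]; simp
  have hrg0 : ∀ i, gm (rg i) ≠ 0 := fun i => gsu_ne_zero hb ⟨rg i, rfl, hrg i⟩
  have hrh0 : ∀ i, gm (rh i) ≠ 0 := fun i => gsu_ne_zero hb ⟨rh i, rfl, hrh i⟩
  have hmrg0 : ∀ z : Fin k → ℤ, mon (fun i => gm (rg i)) z ≠ 0 := fun z => by
    unfold mon; exact Finset.prod_ne_zero_iff.2 fun i _ => zpow_ne_zero _ (hrg0 i)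
  have hmrh0 : ∀ z : Fin l → ℤ, mon (fun i => gm (rh i)) z ≠ 0 := fun z => by
    unfold mon; exact Finset.prod_ne_zero_iff.2 fun i _ => zpow_ne_zero _ (hrh0 i)
  -- monomials in the parameters
  have hmonT : ∀ (z : Fin k → ℤ) (y : Fin l → ℤ), (∀ j, j ∉ J → y j = 0) →
      mon (fun t => gm (T t)) (fun t => Sum.elim z (fun j : J => y j) (e t)) =
        mon (fun i => gm (rg i)) z * mon (fun i => gm (rh i)) y := by
    intro z y hy
    unfold mon
    rw [← e.symm.prod_comp, Fintype.prod_sum_type]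
    simp only [Equiv.apply_symm_apply, Sum.elim_inl, Sum.elim_inr, hTl, hTr]
    congr 1
    rw [Finset.prod_coe_sort J (fun j => gm (rh j) ^ (y j))]
    refine Finset.prod_subset (Finset.subset_univ J) fun j _ hj => ?_
    rw [hy j hj, zpow_zero]
  have hpowK : ∀ (z : Fin k → ℤ) (y : Fin l → ℤ),
      (mon (fun i => gm (g i)) z * mon (fun i => gm (h i)) y) /
        (mon (fun i => gm (rg i)) z * mon (fun i => gm (rh i)) y) ^ N ∈ KK L hL := by
    intro z y
    have h1 := KK_mon hL (fun i => gm (g i)) (fun i => gm (rg i) ^ N) hrgK z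
    have h2 := KK_mon hL (fun i => gm (h i)) (fun i => gm (rh i) ^ N) hrhK y
    have h3 : ∀ {r : ℕ} (u : Fin r → GG) (z : Fin r → ℤ), mon (fun i => u i ^ N) z = (mon u z) ^ N := by
      intro r u z
      unfold mon
      rw [← Finset.prod_pow]
      refine Finset.prod_congr rfl fun i _ => ?_
      show (u i ^ N) ^ (z i) = (u i ^ (z i)) ^ N
      rw [← zpow_natCast, ← zpow_natCast, ← zpow_mul, ← zpow_mul, mul_comm]
    rw [h3] at h1 h2
    have h4 := (KK L hL).mul_mem h1 h2
    rwa [div_mul_div_comm, ← mul_pow] at h4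
  refine ⟨m, T, fun i => e.symm (Sum.inl i), N, hN0, ?_, ?_, ?_, ?_, ?_, ?_⟩
  · intro i i' hii
    simpa using hii
  · intro t n
    rw [hT]
    show IsSU b (Sum.elim rg (fun j : J => rh j) (e t) n)
    rcases e t with i | j
    · exact hrg i n
    · exact hrh j n
  · intro t
    rw [hT]
    show Bd L (gm (Sum.elim rg (fun j : J => rh j) (e t)))
    rcases e t with i | j
    · show Bd L (gm (rg i))
      apply bd_root hN0 hL
      have h1 := (KK L hL).inv_mem (hrgK i)
      rw [inv_div] at h1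
      have h2 := Bd.mul' (bd_of_KK hL h1) (hgB i)
      rwa [div_mul_cancel₀ _ (hg0 i)] at h2
    · show Bd L (gm (rh j))
      apply bd_root hN0 hL
      have h1 := (KK L hL).inv_mem (hrhK j)
      rw [inv_div] at h1
      have h2 := Bd.mul' (bd_of_KK hL h1) (hhB j)
      rwa [div_mul_cancel₀ _ (hh0 j)] at h2
  · intro i
    rw [hTl]
    exact hrgK i
  · intro j
    refine ⟨fun t => Sum.elim (fun i => q j * z j i) (fun j' : J => q j * y j j') (e t), ?_⟩
    rw [hmonT (fun i => q j * z j i) (fun i => q j * y j i)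
      (fun i hi => by rw [hyJ j i hi, mul_zero])]
    apply root_mem hL _ N hN0.ne'
    have h1 := hpowK (fun i => q j * z j i) (fun i => q j * y j i)
    have h2 := (KK L hL).pow_mem (hzy j) (q j)
    rw [div_pow, ← pow_mul, ← hq j] at h2
    have h3 : (mon (fun i => gm (g i)) (z j) * mon (fun i => gm (h i)) (y j)) ^ (q j) =
        mon (fun i => gm (g i)) (fun i => q j * z j i) *
          mon (fun i => gm (h i)) (fun i => q j * y j i) := by
      rw [mon_mul, mon_mul, mul_pow, zpow_natCast, zpow_natCast]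
    rw [h3] at h2
    have h4 := (KK L hL).mul_mem h2 h1
    rw [div_mul_div_cancel₀] at h4
    · rwa [div_pow]
    · exact mul_ne_zero (hmg0 _) (hmh0 _)
  · intro w hw
    obtain ⟨zl, hzl⟩ : ∃ zl : Fin k → ℤ, zl = fun i => w (e.symm (Sum.inl i)) := ⟨_, rfl⟩
    obtain ⟨yl, hyl⟩ : ∃ yl : Fin l → ℤ, yl = fun j => if hj : j ∈ J then
      w (e.symm (Sum.inr ⟨j, hj⟩)) else 0 := ⟨_, rfl⟩
    have h1 : w = fun t => Sum.elim zl (fun j : J => yl j) (e t) := by
      funext t
      obtain ⟨x, rfl⟩ := e.symm.surjective t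
      rw [Equiv.apply_symm_apply]
      rcases x with i | j
      · rw [hzl]; rfl
      · rw [hyl]; simp
    rw [h1, hmonT zl yl (fun j hj => by rw [hyl]; simp [hj])] at hw
    have h2 := (KK L hL).mul_mem (hpowK zl yl) ((KK L hL).pow_mem hw N)
    rw [div_mul_cancel₀] at h2
    · rw [hInd] at hJI
      obtain ⟨h3, h4⟩ := hJI zl yl (fun j hj => by rw [hyl]; simp [hj]) h2
      rw [h1, h3, h4]
      funext t
      rcases e t with i | j <;> simp
    · exact pow_ne_zero _ (mul_ne_zero (hmrg0 _) (hmrh0 _))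

end Pool.Agent.H95.SP
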