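import Mathlib
import Pool.Agent.H95.SP.Root
import Pool.Agent.H95.SP.IrrS
import Pool.Agent.H95.SP.IrrA

/-!
# The dichotomy for `m ^ 2 + 1`, `m` a sum of unit germs
-/

set_option autoImplicit false

namespace Pool.Agent.H95.SP

open Filter Topology Pool.Agent.TH932.Germs Pool.Agent.TH551.SU Pool.Agent.TH551.SU.WT
open Pool.Agent.Y724.Vj MvPolynomial Pool.Agent.H95.EB

variable {L : ℕ → ℝ} {s : ℕ} {b : Fin s → ℕ}

/-- the polynomial of `m ^ 2 + 1` -/
noncomputable def fsq (hL : Tendsto L atTop atTop) {r m : ℕ} (κ : Fin r → KK L hL)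
    (ι : Fin r → Fin m) (N : ℕ) : MvPolynomial (Fin m) (KK L hL) :=
  (∑ i, C (κ i) * X (ι i) ^ N) ^ 2 + 1

theorem germ_sq (hb : ∀ v, (b v).Prime) (hbi : Function.Injective b)
    (hL : Tendsto L atTop atTop) {r k : ℕ} (mm : ℕ → ℕ) (hLm : ∀ n, L n = Real.log (mm n))
    (hm2 : ∀ n, 2 ≤ mm n) (c : Fin r → ℕ → ℤ) (hc : ∀ i, Negl L (c i)) (u : Fin r → ℕ → ℚ)
    (hu : ∀ i n, IsSU b (u i n)) (huB : ∀ i, Bd L (gm (u i)))
    (hmu : ∀ n, (mm n : ℚ) = ∑ i, c i n * u i n)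
    (hui : ∀ z : Fin r → ℤ, mon (fun i => gm (u i)) z ∈ KK L hL → z = 0)
    (hprime : ∀ (m : ℕ) (κ : Fin r → KK L hL) (ι : Fin r → Fin m) (N : ℕ) (T : Fin m → ℕ → ℚ),
      0 < N → Function.Injective ι → (∀ j n, IsSU b (T j n)) →
      (∀ i, (κ i : GG) * gm (T (ι i)) ^ N = gm (fun n => c i n * u i n)) → Prime (fsq hL κ ι N))
    (d : Fin k → ℕ → ℤ) (hd : ∀ i, Negl L (d i)) (v : Fin k → ℕ → ℚ) (hv : ∀ i n, IsSU b (v i n))
    (hvB : ∀ i, Bd L (gm (v i))) (z : ℕ → ℤ) (hz : ∀ n, (z n : ℚ) = ∑ i, d i n * v i n) :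
    (∀ᶠ n in (UU : Filter ℕ), ∃ N : ℕ, ((mm n ^ 2 + 1 : ℕ) : ℤ) ∣ z n * ((∏ v, b v : ℕ) : ℤ) ^ N) ∨
      Negl L (fun n => (Int.gcd (z n) ((mm n ^ 2 + 1 : ℕ) : ℤ) : ℤ)) := by
  classical
  obtain ⟨m, T, ι, N, hN, hι, hT, hTB, hTu, hTv, hTi⟩ := exists_param2 hb hL u hu huB hui v hv hvB
  have hT0 : ∀ j, gm (T j) ≠ 0 := fun j => gsu_ne_zero hb ⟨T j, rfl, hT j⟩
  have hcK : ∀ i, ∃ e : KK L hL, (e : GG) = gm (fun n => (c i n : ℚ)) := fun i =>
    ⟨⟨_, gm_mem_KK' hL (hc i)⟩, rfl⟩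
  choose e he using hcK
  have hκ0 : ∀ i, ∃ κ : KK L hL, (κ : GG) = gm (u i) / gm (T (ι i)) ^ N := fun i =>
    ⟨⟨_, hTu i⟩, rfl⟩
  choose κ0 hκ0 using hκ0
  obtain ⟨κ, hκ⟩ : ∃ κ : Fin r → KK L hL, κ = fun i => e i * κ0 i := ⟨_, rfl⟩
  have hκT : ∀ i, (κ i : GG) * gm (T (ι i)) ^ N = gm (fun n => c i n * u i n) := by
    intro i
    have h1 : (κ i : GG) = (e i : GG) * (κ0 i : GG) := by rw [hκ]; rfl
    rw [h1, he, hκ0, mul_assoc, div_mul_cancel₀ _ (pow_ne_zero _ (hT0 _)), gm_mul]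
  have hfp := hprime m κ ι N T hN hι hT hκT
  obtain ⟨f, hf⟩ : ∃ f : MvPolynomial (Fin m) (KK L hL), f = fsq hL κ ι N := ⟨_, rfl⟩
  rw [← hf] at hfp
  have hf0 : coeff 0 f = 1 := by
    rw [hf, fsq, ← constantCoeff_eq]
    simp [hN.ne']
  obtain ⟨R, hR⟩ : ∃ R : Subring (KK L hL), R = (RS b).comap (algebraMap (KK L hL) GG) := ⟨_, rfl⟩
  have hmR : ∀ x : KK L hL, x ∈ R ↔ (x : GG) ∈ RS b := fun x => by rw [hR]; rfl
  have hκR : ∀ i, κ i ∈ R := by
    intro i
    have h1 : (κ i : GG) = gm (fun n => (c i n : ℚ)) * (gm (u i) / gm (T (ι i)) ^ N) := by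
      rw [hκ, ← he, ← hκ0]; rfl
    rw [hmR, h1]
    refine (RS b).mul_mem (RS_int _) ?_
    rw [gm_pow, gm_div]
    refine RS_su hb fun n => ?_
    rw [div_eq_mul_inv, ← zpow_natCast, ← zpow_neg]
    exact su_mul hb (hu i n) (su_zpow hb (hT _ n) _)
  have hfR : ∀ d, ((coeff d f : KK L hL) : GG) ∈ RS b := by
    intro d
    rw [← hmR]
    have h1 : f = MvPolynomial.map R.subtype
        ((∑ i, C (⟨κ i, hκR i⟩ : R) * X (ι i) ^ N) ^ 2 + 1 : MvPolynomial (Fin m) R) := by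
      rw [hf, fsq, map_add, map_pow, map_one, map_sum]
      simp only [map_mul, map_C, map_pow, map_X]
      rfl
    rw [h1, coeff_map]
    exact (coeff d _ : R).2
  have hF : gm (fun n => ((mm n ^ 2 + 1 : ℕ) : ℚ)) = aeval (fun k => gm (T k)) f := by
    rw [hf, fsq, map_add, map_pow, map_one, map_sum]
    have h1 : ∑ i, aeval (fun k => gm (T k)) (C (κ i) * X (ι i) ^ N : MvPolynomial (Fin m) (KK L hL)) =
        gm (fun n => (mm n : ℚ)) := by
      have h2 : gm (fun n => (mm n : ℚ)) = ∑ i, gm (fun n => c i n * u i n) := by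
        rw [← gm_sum]
        congr 1
        funext n
        exact hmu n
      rw [h2]
      refine Finset.sum_congr rfl fun i _ => ?_
      rw [map_mul, map_pow, aeval_X, aeval_C, ← hκT i]
      rfl
    rw [h1]
    have h2 : gm (fun n => ((mm n ^ 2 + 1 : ℕ) : ℚ)) = gm (fun n => (mm n : ℚ) ^ 2 + 1) := by
      congr 1
      funext n
      push_cast
      rfl
    rw [h2]
    rfl
  choose A hA using hTv
  obtain ⟨G, w, hGR, hG⟩ := exG hb hL T hT d hd v hv A hA z hz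
  refine germ_gen hb hbi hL T hT hTB hTi f hfp hf0 hfR (fun n => mm n ^ 2 + 1)
    (fun n => Nat.succ_ne_zero _) hF 4 ?_ G hGR w z hG
  refine Eventually.of_forall fun n => ?_
  have h1 : (2 : ℝ) ≤ mm n := by exact_mod_cast hm2 n
  have h2 : Real.exp (4 * L n) = (mm n : ℝ) ^ 4 := by
    rw [hLm, mul_comm, Real.exp_mul, Real.exp_log (by linarith)]
    norm_cast
  show ((mm n ^ 2 + 1 : ℕ) : ℝ) ≤ Real.exp (4 * L n)
  rw [h2]
  push_cast
  nlinarith [sq_nonneg ((mm n : ℝ) ^ 2 - 1), pow_pos (by linarith : (0 : ℝ) < mm n) 2]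

lemma gm_sq_ne (x : GG) : x ^ 2 ≠ -1 := by
  obtain ⟨a, rfl⟩ := gm_surj x
  rw [gm_pow, ← gm_one, gm_neg, Ne, gm_eq]
  intro h
  obtain ⟨n, hn⟩ := h.exists
  nlinarith [sq_nonneg (a n)]

lemma KK_sq_ne (hL : Tendsto L atTop atTop) (x : KK L hL) : x ^ 2 ≠ -1 := by
  intro h
  apply gm_sq_ne (x : GG)
  have := congrArg (fun y : KK L hL => (y : GG)) h
  simpa using this

instance instCZ (hL : Tendsto L atTop atTop) : CharZero (KK L hL) := by
  have : CharZero GG := inferInstance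
  exact (algebraMap (KK L hL) GG).charZero_iff (algebraMap (KK L hL) GG).injective |>.2 this

/-- **At least two terms.** -/
theorem germ_two (hb : ∀ v, (b v).Prime) (hbi : Function.Injective b)
    (hL : Tendsto L atTop atTop) {r k : ℕ} (hr : 2 ≤ r) (mm : ℕ → ℕ)
    (hLm : ∀ n, L n = Real.log (mm n))
    (hm2 : ∀ n, 2 ≤ mm n) (c : Fin r → ℕ → ℤ) (hc : ∀ i, Negl L (c i)) (hc0 : ∀ i n, c i n ≠ 0)
    (u : Fin r → ℕ → ℚ)
    (hu : ∀ i n, IsSU b (u i n)) (huB : ∀ i, Bd L (gm (u i)))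
    (hmu : ∀ n, (mm n : ℚ) = ∑ i, c i n * u i n)
    (hui : ∀ z : Fin r → ℤ, mon (fun i => gm (u i)) z ∈ KK L hL → z = 0)
    (d : Fin k → ℕ → ℤ) (hd : ∀ i, Negl L (d i)) (v : Fin k → ℕ → ℚ) (hv : ∀ i n, IsSU b (v i n))
    (hvB : ∀ i, Bd L (gm (v i))) (z : ℕ → ℤ) (hz : ∀ n, (z n : ℚ) = ∑ i, d i n * v i n) :
    (∀ᶠ n in (UU : Filter ℕ), ∃ N : ℕ, ((mm n ^ 2 + 1 : ℕ) : ℤ) ∣ z n * ((∏ v, b v : ℕ) : ℤ) ^ N) ∨
      Negl L (fun n => (Int.gcd (z n) ((mm n ^ 2 + 1 : ℕ) : ℤ) : ℤ)) := by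
  classical
  refine germ_sq hb hbi hL mm hLm hm2 c hc u hu huB hmu hui ?_ d hd v hv hvB z hz
  intro m κ ι N T hN hι hT hκT
  have hT0 : ∀ j, gm (T j) ≠ 0 := fun j => gsu_ne_zero hb ⟨T j, rfl, hT j⟩
  have hu0 : ∀ i, gm (u i) ≠ 0 := fun i => gsu_ne_zero hb ⟨u i, rfl, hu i⟩
  have hκ0 : ∀ i, κ i ≠ 0 := by
    intro i h0
    have h1 := hκT i
    rw [h0] at h1
    have h2 : gm (fun n => (c i n : ℚ) * u i n) ≠ 0 := by
      rw [← gm_mul]
      refine mul_ne_zero ?_ (hu0 i)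
      rw [gm_ne_zero]
      exact Eventually.of_forall fun n => by exact_mod_cast hc0 i n
    apply h2
    rw [← h1]
    simp
  obtain ⟨κ', hκ'⟩ : ∃ κ' : Fin m → KK L hL, κ' = fun j => ∑ i, if ι i = j then κ i else 0 :=
    ⟨_, rfl⟩
  have h1 : fsq hL κ ι N = (∑ j, C (κ' j) * X j ^ N) ^ 2 + 1 := by
    rw [fsq]
    congr 2
    rw [hκ']
    simp only [map_sum, Finset.sum_mul]
    rw [Finset.sum_comm]
    refine Finset.sum_congr rfl fun i _ => ?_
    rw [Finset.sum_eq_single (ι i)]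
    · rw [if_pos rfl]
    · intro j _ hj
      rw [if_neg hj.symm, map_zero, zero_mul]
    · intro h
      exact absurd (Finset.mem_univ _) h
  have h2 : ∀ i, κ' (ι i) = κ i := by
    intro i
    rw [hκ']
    simp only
    rw [Finset.sum_eq_single i]
    · rw [if_pos rfl]
    · intro j _ hj
      rw [if_neg]
      exact fun h => hj (hι h)
    · intro h
      exact absurd (Finset.mem_univ _) h
  rw [h1]
  apply Irreducible.prime
  refine irrSq (KK_sq_ne hL) κ' (ι ⟨0, by omega⟩) (ι ⟨1, by omega⟩) ?_ ?_ ?_ hN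
  · intro h
    have := hι h
    simp at this
  · rw [h2]; exact hκ0 _
  · rw [h2]; exact hκ0 _

/-- **One term.** -/
theorem germ_one (hb : ∀ v, (b v).Prime) (hbi : Function.Injective b)
    (hL : Tendsto L atTop atTop) {k : ℕ} (mm : ℕ → ℕ)
    (hLm : ∀ n, L n = Real.log (mm n)) (hm2 : ∀ n, 2 ≤ mm n)
    (hodd : ∀ n, ∀ p : ℕ, p.Prime → p ≠ 2 → ∀ w : ℕ, w ^ p ≠ mm n)
    (htwo : ∀ n, ∀ w : ℕ, 2 * w ^ 2 ≠ mm n)
    (c : ℕ → ℤ) (hc : Negl L c) (u : ℕ → ℚ)
    (hu : ∀ n, IsSU b (u n)) (hmu : ∀ n, (mm n : ℚ) = c n * u n)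
    (d : Fin k → ℕ → ℤ) (hd : ∀ i, Negl L (d i)) (v : Fin k → ℕ → ℚ) (hv : ∀ i n, IsSU b (v i n))
    (hvB : ∀ i, Bd L (gm (v i))) (z : ℕ → ℤ) (hz : ∀ n, (z n : ℚ) = ∑ i, d i n * v i n) :
    (∀ᶠ n in (UU : Filter ℕ), ∃ N : ℕ, ((mm n ^ 2 + 1 : ℕ) : ℤ) ∣ z n * ((∏ v, b v : ℕ) : ℤ) ^ N) ∨
      Negl L (fun n => (Int.gcd (z n) ((mm n ^ 2 + 1 : ℕ) : ℤ) : ℤ)) := by
  classical
  have hmr : ∀ n, (2 : ℝ) ≤ mm n := fun n => by exact_mod_cast hm2 n
  have hexp : ∀ n, Real.exp (L n) = mm n := fun n => by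
    rw [hLm, Real.exp_log (by linarith [hmr n])]
  have hmm0 : ∀ n, (mm n : ℚ) ≠ 0 := fun n => by
    have := hm2 n
    exact_mod_cast (by omega : mm n ≠ 0)
  have hc0 : ∀ n, c n ≠ 0 := by
    intro n h
    have := hmu n
    rw [h, Int.cast_zero, zero_mul] at this
    exact hmm0 n this
  have hcg0 : gm (fun n => (c n : ℚ)) ≠ 0 := by
    rw [gm_ne_zero]
    exact Eventually.of_forall fun n => by exact_mod_cast hc0 n
  have hu0 : gm u ≠ 0 := gsu_ne_zero hb ⟨u, rfl, hu⟩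
  have hgmm : gm (fun n => (mm n : ℚ)) = gm (fun n => (c n : ℚ)) * gm u := by
    rw [gm_mul]
    congr 1
    funext n
    exact hmu n
  have hmmK : gm (fun n => (mm n : ℚ)) ∉ KK L hL := by
    intro h
    rw [mem_KK_iff] at h
    obtain ⟨n, h2, h3⟩ := ((h.1 (1 / 2) (by positivity)).and
      (ev_of_atTop (hL.eventually_gt_atTop 0))).exists
    simp only [Rat.num_natCast] at h2
    rw [Int.cast_natCast, abs_of_nonneg (Nat.cast_nonneg _), ← hexp, Real.exp_le_exp] at h2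
    nlinarith
  have huK : gm u ∉ KK L hL := by
    intro h
    apply hmmK
    rw [hgmm]
    exact (KK L hL).mul_mem (gm_mem_KK' hL hc) h
  have hmmB : Bd L (gm (fun n => (mm n : ℚ))) := by
    refine ⟨fun n => (mm n : ℤ), fun _ => 1, 1, ?_, ?_, ?_, ?_⟩
    · refine Eventually.of_forall fun n => ?_
      rw [Int.cast_natCast, abs_of_nonneg (Nat.cast_nonneg _), one_mul, hexp]
    · filter_upwards [L_nonneg hL] with n hn
      rw [Int.cast_one, abs_one]
      exact Real.one_le_exp (by linarith)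
    · exact Eventually.of_forall fun n => one_ne_zero
    · congr 1
      funext n
      simp
  have huB : Bd L (gm u) := by
    have h1 : gm u = (gm (fun n => (c n : ℚ)))⁻¹ * gm (fun n => (mm n : ℚ)) := by
      rw [hgmm, inv_mul_cancel_left₀ hcg0]
    rw [h1]
    exact Bd.mul' (bd_of_KK hL ((KK L hL).inv_mem (gm_mem_KK' hL hc))) hmmB
  refine germ_sq hb hbi hL mm hLm hm2 (fun _ : Fin 1 => c) (fun _ => hc) (fun _ => u) (fun _ => hu)
    (fun _ => huB) (fun n => by simp [hmu n]) ?_ ?_ d hd v hv hvB z hz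
  · intro y hy
    have h1 : mon (fun _ : Fin 1 => gm u) y = gm u ^ (y 0) := by
      unfold mon
      simp
    rw [h1] at hy
    have h2 : y 0 = 0 := by
      by_contra h0
      apply huK
      rcases Int.natAbs_eq (y 0) with h2 | h2
      · rw [h2, zpow_natCast] at hy
        exact root_mem hL _ _ (Int.natAbs_ne_zero.2 h0) hy
      · rw [h2, zpow_neg, zpow_natCast] at hy
        have h3 := (KK L hL).inv_mem hy
        rw [inv_inv] at h3
        exact root_mem hL _ _ (Int.natAbs_ne_zero.2 h0) h3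
    funext i
    rw [Subsingleton.elim i 0, h2]
    rfl
  · intro m κ ι N T hN hι hT hκT
    have hT0 : ∀ j, gm (T j) ≠ 0 := fun j => gsu_ne_zero hb ⟨T j, rfl, hT j⟩
    have hκ1 : (κ 0 : GG) * gm (T (ι 0)) ^ N = gm (fun n => (mm n : ℚ)) := by
      rw [hκT 0, hgmm, gm_mul]
    have hκ0 : κ 0 ≠ 0 := by
      intro h0
      rw [h0] at hκ1
      have h2 : gm (fun n => (mm n : ℚ)) ≠ 0 := by
        rw [gm_ne_zero]
        exact Eventually.of_forall hmm0
      apply h2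
      rw [← hκ1]
      simp
    have h1 : fsq hL κ ι N =
        ((Polynomial.C (κ 0) * Polynomial.X ^ N) ^ 2 + 1 : Polynomial (KK L hL)).toMvPolynomial (ι 0) := by
      rw [fsq]
      simp
    rw [h1]
    apply prime_toMv
    apply Irreducible.prime
    refine irrQ (KK_sq_ne hL) hκ0 ?_ ?_ hN
    · intro p hp hp2 ⟨q, hq⟩ x hx
      have h2 : ((x : GG) * gm (T (ι 0)) ^ (2 * q)) ^ p = gm (fun n => (mm n : ℚ)) ^ 2 := by
        rw [← hκ1, mul_pow, mul_pow, ← pow_mul, ← pow_mul]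
        have h3 := congrArg (fun y : KK L hL => (y : GG)) hx
        simp only [SubmonoidClass.coe_pow] at h3
        rw [h3]
        congr 2
        rw [hq]
        ring
      obtain ⟨a, ha⟩ := gm_surj ((x : GG) * gm (T (ι 0)) ^ (2 * q))
      rw [← ha, gm_pow, gm_pow, gm_eq] at h2
      obtain ⟨n, hn⟩ := h2.exists
      have h6 : |a n| ^ p = ((mm n ^ 2 : ℕ) : ℚ) := by
        rw [← abs_pow, hn, abs_of_nonneg (by positivity)]
        push_cast
        rfl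
      obtain ⟨w, hw⟩ := exists_nat_of_pow hp.pos h6
      have h7 := pow_dvd_of_pow_eq hp (hm2 n) (hodd n p hp hp2) hp.pos hw
      rw [hp.factorization_self, pow_one] at h7
      exact hp2 ((Nat.prime_dvd_prime_iff_eq hp Nat.prime_two).1 h7)
    · intro ⟨q, hq⟩ x
      -- from a representation of the germ to one of the numbers
      have key : ∀ σ : ℚ, (σ = 1 ∨ σ = -1) →
          gm (fun _ => σ * 2) * ((x : GG) * gm (T (ι 0)) ^ q) ^ 2 ≠ gm (fun n => (mm n : ℚ)) := by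
        intro σ hσ h3
        obtain ⟨a, ha⟩ := gm_surj ((x : GG) * gm (T (ι 0)) ^ q)
        rw [← ha, gm_pow, gm_mul, gm_eq] at h3
        obtain ⟨n, hn⟩ := h3.exists
        have h4 : (0 : ℚ) < mm n := lt_of_le_of_ne (Nat.cast_nonneg _) (hmm0 n).symm
        have h5 : 2 * a n ^ 2 = mm n := by
          rcases hσ with h | h
          · rw [h] at hn; linarith
          · rw [h] at hn
            nlinarith [sq_nonneg (a n)]
        have h7 : |(2 * a n)| ^ 2 = ((2 * mm n : ℕ) : ℚ) := by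
          rw [sq_abs]
          push_cast
          linear_combination 2 * h5
        obtain ⟨w, hw⟩ := exists_nat_of_pow (by norm_num) h7
        have h8 : Even w := by
          have : Even (w ^ 2) := by rw [hw]; exact even_two_mul (mm n)
          exact (Nat.even_pow.1 this).1
        obtain ⟨w', hw'⟩ := h8
        apply htwo n w'
        rw [hw'] at hw
        nlinarith
      constructor
      · intro h2
        apply key 1 (Or.inl rfl)
        rw [← hκ1]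
        have h3 := congrArg (fun y : KK L hL => (y : GG)) h2
        have h4 : (2 : GG) * (x : GG) ^ 2 = (κ 0 : GG) := h3
        rw [← h4, hq, mul_pow, ← pow_mul, mul_comm q 2]
        have h5 : gm (fun _ => (1 : ℚ) * 2) = 2 := by
          rw [one_mul]
          rfl
        rw [h5]
        ring
      · intro h2
        apply key (-1) (Or.inr rfl)
        rw [← hκ1]
        have h3 := congrArg (fun y : KK L hL => (y : GG)) h2
        have h4 : (2 : GG) * (x : GG) ^ 2 = -(κ 0 : GG) := h3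
        have h6 : (κ 0 : GG) = -((2 : GG) * (x : GG) ^ 2) := by rw [h4, neg_neg]
        rw [h6, hq, mul_pow, ← pow_mul, mul_comm q 2]
        have h5 : gm (fun _ => (-1 : ℚ) * 2) = -2 := by
          rw [neg_one_mul]
          rfl
        rw [h5]
        ring

end Pool.Agent.H95.SP
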