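import Mathlib
import Pool.Agent.H95.SP.Case
import Pool.Agent.H95.EB.Fin

/-!
# `m ^ 2 + 1` behaves like a prime for short sums of `S`-units: one term, several terms
-/

set_option autoImplicit false

namespace Pool.Agent.H95.SP

open Filter Topology Pool.Agent.TH932.Germs Pool.Agent.TH551.SU Pool.Agent.TH551.SU.WT
open Pool.Agent.Y724.Vj Pool.Agent.H95.EB

/-- `F` behaves like a prime: every short sum `z` is divisible by `F` up to primes of `S`, or has a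
small common divisor with `F` -/
def PrimeLike (S : Finset ℕ) (k : ℕ) (δ C ε : ℝ) (F : ℕ) : Prop :=
  ∀ z : ℤ, Short S k ((F : ℝ) ^ δ) ((F : ℝ) ^ C) z →
    (∃ N : ℕ, (F : ℤ) ∣ z * ((∏ p ∈ S, p : ℕ) : ℤ) ^ N) ∨ (Int.gcd z F : ℝ) ≤ (F : ℝ) ^ ε

lemma prod_bs (S : Finset ℕ) : ∏ v, bs S v = ∏ p ∈ S, p := by
  unfold bs
  rw [S.equivFin.symm.prod_comp (fun p : S => (p : ℕ)), Finset.prod_coe_sort S (fun p => p)]

lemma isSU_of (S : Finset ℕ) (hS : ∀ p ∈ S, p.Prime) {x : ℚ} (hx : IsSUnit S x) :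
    IsSU (bs S) x := su_of S hS x hx.1 hx.2.1 hx.2.2

section seq
variable {mm : ℕ → ℕ} (hm : ∀ n, n + 2 ≤ mm n)
include hm

lemma logs_tendsto : Tendsto (fun n => Real.log (mm n)) atTop atTop := by
  refine Real.tendsto_log_atTop.comp ?_
  refine tendsto_natCast_atTop_atTop.comp ?_
  exact tendsto_atTop_mono (fun n => (Nat.le_add_right n 2).trans (hm n)) tendsto_id

lemma log_pos (n : ℕ) : 0 < Real.log (mm n) :=
  Real.log_pos (by exact_mod_cast (by have := hm n; omega : 1 < mm n))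

lemma rpow_eq (n : ℕ) (x : ℝ) : (mm n : ℝ) ^ x = Real.exp (x * Real.log (mm n)) := by
  have h : (0 : ℝ) < mm n := by exact_mod_cast (by have := hm n; omega : 0 < mm n)
  rw [Real.rpow_def_of_pos h, mul_comm]

lemma F_le (n : ℕ) {x : ℝ} (hx : 0 ≤ x) : ((mm n ^ 2 + 1 : ℕ) : ℝ) ^ x ≤
    Real.exp (4 * x * Real.log (mm n)) := by
  have h1 : (2 : ℝ) ≤ mm n := by exact_mod_cast (by have := hm n; omega : 2 ≤ mm n)
  have h2 : ((mm n ^ 2 + 1 : ℕ) : ℝ) ≤ Real.exp (4 * Real.log (mm n)) := by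
    have h3 : Real.exp (4 * Real.log (mm n)) = (mm n : ℝ) ^ 4 := by
      rw [mul_comm, Real.exp_mul, Real.exp_log (by linarith)]
      norm_cast
    rw [h3]
    push_cast
    nlinarith [sq_nonneg ((mm n : ℝ) ^ 2 - 1), pow_pos (by linarith : (0 : ℝ) < mm n) 2]
  refine (Real.rpow_le_rpow (by positivity) h2 hx).trans ?_
  rw [← Real.exp_mul]
  apply Real.exp_le_exp.2
  linarith

lemma F_ge (n : ℕ) {x : ℝ} (hx : 0 ≤ x) :
    Real.exp (2 * x * Real.log (mm n)) ≤ ((mm n ^ 2 + 1 : ℕ) : ℝ) ^ x := by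
  have h1 : (2 : ℝ) ≤ mm n := by exact_mod_cast (by have := hm n; omega : 2 ≤ mm n)
  have h2 : Real.exp (2 * Real.log (mm n)) ≤ ((mm n ^ 2 + 1 : ℕ) : ℝ) := by
    have h3 : Real.exp (2 * Real.log (mm n)) = (mm n : ℝ) ^ 2 := by
      rw [mul_comm, Real.exp_mul, Real.exp_log (by linarith)]
      norm_cast
    rw [h3]
    push_cast
    linarith
  refine le_trans ?_ (Real.rpow_le_rpow (Real.exp_pos _).le h2 hx)
  rw [← Real.exp_mul]
  apply Real.exp_le_exp.2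
  linarith

lemma negl_rpow {c : ℕ → ℤ} {A : ℝ} (hA : 0 ≤ A)
    (h : ∀ n, |(c n : ℝ)| ≤ Real.exp (A * (1 / ((n : ℝ) + 1)) * Real.log (mm n))) :
    Negl (fun n => Real.log (mm n)) c := by
  intro η hη
  have h1 : Tendsto (fun n : ℕ => A * (1 / ((n : ℝ) + 1))) atTop (𝓝 0) := by
    have := tendsto_one_div_add_atTop_nhds_zero_nat (𝕜 := ℝ)
    simpa using this.const_mul A
  filter_upwards [ev_of_atTop (h1.eventually (gt_mem_nhds hη))] with n hn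
  refine (h n).trans ?_
  apply Real.exp_le_exp.2
  exact mul_le_mul_of_nonneg_right hn.le (log_pos hm n).le

lemma bd_of {u : ℕ → ℚ} {A : ℝ}
    (h1 : ∀ n, |((u n).num : ℝ)| ≤ Real.exp (A * Real.log (mm n)))
    (h2 : ∀ n, ((u n).den : ℝ) ≤ Real.exp (A * Real.log (mm n))) :
    Bd (fun n => Real.log (mm n)) (gm u) := by
  refine ⟨fun n => (u n).num, fun n => ((u n).den : ℤ), A, ?_, ?_, ?_, ?_⟩
  · exact Eventually.of_forall h1
  · refine Eventually.of_forall fun n => ?_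
    rw [Int.cast_natCast, abs_of_nonneg (Nat.cast_nonneg _)]
    exact h2 n
  · refine Eventually.of_forall fun n => ?_
    show ((u n).den : ℤ) ≠ 0
    exact_mod_cast (u n).den_ne_zero
  · congr 1
    funext n
    rw [Int.cast_natCast, Rat.num_div_den]

/-- the data of a sequence of short sums -/
lemma short_seq (S : Finset ℕ) (hS : ∀ p ∈ S, p.Prime) {k : ℕ} {C : ℝ} (z : ℕ → ℤ)
    (h : ∀ n, Short S k (((mm n ^ 2 + 1 : ℕ) : ℝ) ^ (1 / ((n : ℝ) + 1)))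
      (((mm n ^ 2 + 1 : ℕ) : ℝ) ^ C) (z n)) :
    ∃ (d : Fin k → ℕ → ℤ) (v : Fin k → ℕ → ℚ), (∀ i, Negl (fun n => Real.log (mm n)) (d i)) ∧
      (∀ i n, IsSU (bs S) (v i n)) ∧ (∀ i, Bd (fun n => Real.log (mm n)) (gm (v i))) ∧
      ∀ n, (z n : ℚ) = ∑ i, d i n * v i n := by
  choose d v hd hv hz using h
  have hF1 : ∀ n, (1 : ℝ) ≤ ((mm n ^ 2 + 1 : ℕ) : ℝ) := fun n => by
    push_cast
    nlinarith [sq_nonneg (mm n : ℝ)]
  refine ⟨fun i n => d n i, fun i n => v n i, fun i => ?_, fun i n => isSU_of S hS (hv n i).1,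
    fun i => ?_, fun n => hz n⟩
  · refine negl_rpow hm (A := 4) (by norm_num) fun n => ?_
    refine (hd n i).trans ?_
    exact F_le hm n (by positivity)
  · have hFC : ∀ n, ((mm n ^ 2 + 1 : ℕ) : ℝ) ^ C ≤ Real.exp (4 * |C| * Real.log (mm n)) := fun n =>
      (Real.rpow_le_rpow_of_exponent_le (hF1 n) (le_abs_self C)).trans (F_le hm n (abs_nonneg C))
    exact bd_of hm (fun n => ((hv n i).2.1).trans (hFC n)) (fun n => ((hv n i).2.2).trans (hFC n))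

lemma no_dich (S : Finset ℕ) {ε : ℝ} (hε : 0 < ε) (z : ℕ → ℤ)
    (h1 : ∀ n, ¬ ∃ N : ℕ, ((mm n ^ 2 + 1 : ℕ) : ℤ) ∣ z n * ((∏ p ∈ S, p : ℕ) : ℤ) ^ N)
    (h2 : ∀ n, ((mm n ^ 2 + 1 : ℕ) : ℝ) ^ ε < (Int.gcd (z n) ((mm n ^ 2 + 1 : ℕ) : ℤ) : ℝ))
    (h : (∀ᶠ n in (UU : Filter ℕ), ∃ N : ℕ,
      ((mm n ^ 2 + 1 : ℕ) : ℤ) ∣ z n * ((∏ v, bs S v : ℕ) : ℤ) ^ N) ∨
      Negl (fun n => Real.log (mm n))
        (fun n => (Int.gcd (z n) ((mm n ^ 2 + 1 : ℕ) : ℤ) : ℤ))) : False := by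
  rw [prod_bs] at h
  rcases h with h | h
  · obtain ⟨n, hn⟩ := h.exists
    exact h1 n hn
  · obtain ⟨n, hn⟩ := (h ε hε).exists
    rw [Int.cast_natCast, abs_of_nonneg (Nat.cast_nonneg _)] at hn
    have h3 := h2 n
    have h4 := F_ge hm n hε.le
    have h5 : Real.exp (ε * Real.log (mm n)) < Real.exp (2 * ε * Real.log (mm n)) := by
      apply Real.exp_lt_exp.2
      have := log_pos hm n
      nlinarith [mul_pos hε this]
    linarith

end seq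

/-- **One term.** -/
theorem one_term (S : Finset ℕ) (hS : ∀ p ∈ S, p.Prime) (k : ℕ) (C ε : ℝ) (hε : 0 < ε) :
    ∃ δ : ℝ, 0 < δ ∧ ∃ m₀ : ℕ, ∀ m : ℕ, m₀ ≤ m →
      (∃ c u : ℕ, m = c * u ∧ (c : ℝ) ≤ (m : ℝ) ^ δ ∧ u.primeFactors ⊆ S) →
      (∀ p : ℕ, p.Prime → p ≠ 2 → ∀ w : ℕ, w ^ p ≠ m) → (∀ w : ℕ, 2 * w ^ 2 ≠ m) →
      PrimeLike S k δ C ε (m ^ 2 + 1) := by
  by_contra hcon
  push Not at hcon
  have hch : ∀ n : ℕ, ∃ m : ℕ, n + 2 ≤ m ∧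
      (∃ c u : ℕ, m = c * u ∧ (c : ℝ) ≤ (m : ℝ) ^ (1 / ((n : ℝ) + 1)) ∧ u.primeFactors ⊆ S) ∧
      (∀ p : ℕ, p.Prime → p ≠ 2 → ∀ w : ℕ, w ^ p ≠ m) ∧ (∀ w : ℕ, 2 * w ^ 2 ≠ m) ∧
      ¬ PrimeLike S k (1 / ((n : ℝ) + 1)) C ε (m ^ 2 + 1) := by
    intro n
    obtain ⟨m, hm, hrest⟩ := hcon (1 / ((n : ℝ) + 1)) (by positivity) (n + 2)
    exact ⟨m, hm, hrest⟩
  choose mm hm hcu hodd htwo hbad using hch
  choose c u hmcu hc hu using hcu
  unfold PrimeLike at hbad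
  push Not at hbad
  choose z hsh hnd hgcd using hbad
  obtain ⟨d, v, hd, hv, hvB, hz⟩ := short_seq hm S hS z hsh
  have hL := logs_tendsto hm
  have hu0 : ∀ n, u n ≠ 0 := by
    intro n h0
    have := hmcu n
    have := hm n
    rw [h0, mul_zero] at *
    omega
  refine no_dich hm S hε z (fun n => by push Not; exact hnd n) hgcd ?_
  refine germ_one (bs_prime S hS) (bs_inj S) hL mm (fun n => rfl)
    (fun n => (Nat.le_add_left 2 n).trans (hm n)) hodd htwo (fun n => (c n : ℤ)) ?_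
    (fun n => (u n : ℚ)) ?_ ?_ d hd v hv hvB z hz
  · refine negl_rpow hm (A := 1) (by norm_num) fun n => ?_
    rw [Int.cast_natCast, abs_of_nonneg (Nat.cast_nonneg _), one_mul, ← rpow_eq hm]
    exact hc n
  · intro n
    refine su_of S hS _ (by exact_mod_cast hu0 n) ?_ ?_
    · simpa using hu n
    · simp
  · intro n
    rw [hmcu n]
    push_cast
    rfl

/-- **Several terms.** -/
theorem more_terms (S : Finset ℕ) (hS : ∀ p ∈ S, p.Prime) (r : ℕ) (hr : 2 ≤ r) (k : ℕ) (C ε : ℝ)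
    (hε : 0 < ε) (τ : (Fin r → ℤ) → ℝ) (hτ : ∀ n, 0 < τ n) :
    ∃ δ : ℝ, 0 < δ ∧ ∃ B m₀ : ℕ, ∀ m : ℕ, m₀ ≤ m → ∀ (c : Fin r → ℤ) (u : Fin r → ℚ),
      (∀ i, c i ≠ 0 ∧ |(c i : ℝ)| ≤ (m : ℝ) ^ δ) →
      (∀ i, IsSUnit S (u i) ∧ |((u i).num : ℝ)| ≤ (m : ℝ) ^ C ∧ ((u i).den : ℝ) ≤ (m : ℝ) ^ C) →
      (m : ℚ) = ∑ i, c i * u i →
      (∃ y : Fin r → ℤ, y ≠ 0 ∧ (∀ i, |y i| ≤ B) ∧
        |((∏ i, u i ^ y i).num : ℝ)| ≤ (m : ℝ) ^ τ y ∧ ((∏ i, u i ^ y i).den : ℝ) ≤ (m : ℝ) ^ τ y) ∨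
      PrimeLike S k δ C ε (m ^ 2 + 1) := by
  by_contra hcon
  push Not at hcon
  have hch : ∀ n : ℕ, ∃ m : ℕ, n + 2 ≤ m ∧ ∃ (c : Fin r → ℤ) (u : Fin r → ℚ),
      (∀ i, c i ≠ 0 ∧ |(c i : ℝ)| ≤ (m : ℝ) ^ (1 / ((n : ℝ) + 1))) ∧
      (∀ i, IsSUnit S (u i) ∧ |((u i).num : ℝ)| ≤ (m : ℝ) ^ C ∧ ((u i).den : ℝ) ≤ (m : ℝ) ^ C) ∧
      (m : ℚ) = ∑ i, c i * u i ∧
      (∀ y : Fin r → ℤ, y ≠ 0 → (∀ i, |y i| ≤ n) →
        |((∏ i, u i ^ y i).num : ℝ)| ≤ (m : ℝ) ^ τ y →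
          (m : ℝ) ^ τ y < ((∏ i, u i ^ y i).den : ℝ)) ∧
      ¬ PrimeLike S k (1 / ((n : ℝ) + 1)) C ε (m ^ 2 + 1) := by
    intro n
    obtain ⟨m, hm, c, u, h1, h2, h3, h4, h5⟩ := hcon (1 / ((n : ℝ) + 1)) (by positivity) n (n + 2)
    exact ⟨m, hm, c, u, h1, h2, h3, h4, h5⟩
  choose mm hm c u hc hu hmcu hind hbad using hch
  unfold PrimeLike at hbad
  push Not at hbad
  choose z hsh hnd hgcd using hbad
  obtain ⟨d, v, hd, hv, hvB, hz⟩ := short_seq hm S hS z hsh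
  have hL := logs_tendsto hm
  refine no_dich hm S hε z (fun n => by push Not; exact hnd n) hgcd ?_
  refine germ_two (bs_prime S hS) (bs_inj S) hL hr mm (fun n => rfl)
    (fun n => (Nat.le_add_left 2 n).trans (hm n)) (fun i n => c n i) ?_ (fun i n => (hc n i).1)
    (fun i n => u n i) (fun i n => isSU_of S hS (hu n i).1) ?_ (fun n => hmcu n) ?_
    d hd v hv hvB z hz
  · intro i
    refine negl_rpow hm (A := 1) (by norm_num) fun n => ?_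
    rw [one_mul, ← rpow_eq hm]
    exact (hc n i).2
  · intro i
    refine bd_of hm (A := C) (fun n => ?_) (fun n => ?_)
    · rw [← rpow_eq hm]; exact (hu n i).2.1
    · rw [← rpow_eq hm]; exact (hu n i).2.2
  · intro y hy
    by_contra hy0
    rw [← gm_mseq, mem_KK_iff] at hy
    have hτy := hτ y
    obtain ⟨Y, hY⟩ : ∃ Y : ℕ, ∀ i, |y i| ≤ Y := by
      refine ⟨∑ i, (y i).natAbs, fun i => ?_⟩
      rw [Int.abs_eq_natAbs]
      exact_mod_cast Finset.single_le_sum (f := fun i => (y i).natAbs) (fun _ _ => Nat.zero_le _)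
        (Finset.mem_univ i)
    obtain ⟨n, h1, h2, h3⟩ := ((hy.1 (τ y) hτy).and ((hy.2 (τ y) hτy).and
      (ev_of_atTop (eventually_ge_atTop Y)))).exists
    have h4 := hind n y hy0 (fun i => (hY i).trans (by exact_mod_cast h3))
    simp only [mseq] at h1 h2
    rw [← rpow_eq hm] at h1 h2
    rw [Int.cast_natCast, abs_of_nonneg (Nat.cast_nonneg _)] at h2
    have h5 := h4 h1
    linarith

/-- **Euclid's lemma.** -/
theorem euclid_like (S : Finset ℕ) (k j : ℕ) (δ C ε : ℝ) (hj : j * ε < 1) (F : ℕ) (hF : 2 ≤ F)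
    (h : PrimeLike S k δ C ε F) (z : Fin j → ℤ)
    (hz : ∀ i, Short S k ((F : ℝ) ^ δ) ((F : ℝ) ^ C) (z i)) (hdvd : (F : ℤ) ∣ ∏ i, z i) :
    ∃ i, ∃ N : ℕ, (F : ℤ) ∣ z i * ((∏ p ∈ S, p : ℕ) : ℤ) ^ N := by
  by_contra hcon
  push Not at hcon
  have h1 : ∀ i, (Int.gcd (z i) (F : ℤ) : ℝ) ≤ (F : ℝ) ^ ε := fun i =>
    (h (z i) (hz i)).resolve_left (by push Not; exact hcon i)
  have hF1 : (1 : ℝ) < F := by exact_mod_cast (by omega : 1 < F)
  have h2 : ∀ T : Finset (Fin j), ((Int.gcd (∏ i ∈ T, z i) (F : ℤ) : ℕ) : ℝ) ≤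
      ((F : ℝ) ^ ε) ^ T.card := by
    intro T
    classical
    induction T using Finset.induction_on with
    | empty => simp
    | insert i T hi ih =>
      rw [Finset.prod_insert hi, Finset.card_insert_of_notMem hi, pow_succ, mul_comm (_ ^ _)]
      have h3 : Int.gcd (z i * ∏ i ∈ T, z i) (F : ℤ) ≤
          Int.gcd (z i) (F : ℤ) * Int.gcd (∏ i ∈ T, z i) (F : ℤ) := by
        have h4 : Int.gcd (z i * ∏ i ∈ T, z i) (F : ℤ) ∣
            Int.gcd (z i) (F : ℤ) * Int.gcd (∏ i ∈ T, z i) (F : ℤ) := by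
          exact Int.gcd_mul_left_dvd_mul_gcd _ _ _
        have hFz : (F : ℤ) ≠ 0 := by exact_mod_cast (by omega : F ≠ 0)
        refine Nat.le_of_dvd (Nat.mul_pos ?_ ?_) h4
        · refine Nat.pos_of_ne_zero fun h5 => ?_
          rw [Int.gcd_eq_zero_iff] at h5
          exact hFz h5.2
        · refine Nat.pos_of_ne_zero fun h5 => ?_
          rw [Int.gcd_eq_zero_iff] at h5
          exact hFz h5.2
      calc ((Int.gcd (z i * ∏ i ∈ T, z i) (F : ℤ) : ℕ) : ℝ) ≤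
          (Int.gcd (z i) (F : ℤ) : ℝ) * (Int.gcd (∏ i ∈ T, z i) (F : ℤ) : ℝ) := by exact_mod_cast h3
        _ ≤ _ := mul_le_mul (h1 i) ih (Nat.cast_nonneg _) (by positivity)
  have h3 := h2 Finset.univ
  have h4 : Int.gcd (∏ i, z i) (F : ℤ) = F := by
    rw [Int.gcd_comm]
    have := Int.gcd_eq_left_iff_dvd (a := (F : ℤ)) (b := ∏ i, z i) (by positivity)
    have h5 := this.2 hdvd
    exact_mod_cast h5
  rw [h4, Finset.card_univ, Fintype.card_fin, ← Real.rpow_natCast, ← Real.rpow_mul (by linarith)] at h3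
  have h5 : (F : ℝ) ^ (ε * (j : ℕ)) < (F : ℝ) ^ (1 : ℝ) := by
    apply Real.rpow_lt_rpow_of_exponent_lt hF1
    linarith
  rw [Real.rpow_one] at h5
  linarith

end Pool.Agent.H95.SP
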