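import Mathlib
import Pool.Agent.H95.SP.Fin

/-!
# `m ^ 2 + 1` behaves like a prime for almost all `m` with `r ≥ 2` nonzero digits
-/

set_option autoImplicit false

namespace Pool.Agent.H95.SP

open Filter Topology Pool.Agent.H95.EB

/-- the number of nonzero digits of `m` in base `β` -/
def nzd (β m : ℕ) : ℕ := ((Nat.digits β m).filter fun x => x ≠ 0).length

/-- a number is the sum of its nonzero digits times powers of the base -/
lemma ofDigits_rep (β : ℕ) : ∀ (l : List ℕ) (r : ℕ), (∀ x ∈ l, x < β) →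
    (l.filter fun x => x ≠ 0).length = r →
    ∃ (a d : Fin r → ℕ), (∀ i, a i < l.length) ∧ (∀ i, d i ≠ 0 ∧ d i < β) ∧
      Nat.ofDigits β l = ∑ i, d i * β ^ (a i) := by
  intro l
  induction l with
  | nil =>
    intro r _ hr
    simp only [List.filter_nil, List.length_nil] at hr
    subst hr
    exact ⟨fun i => i.elim0, fun i => i.elim0, fun i => i.elim0, fun i => i.elim0, by simp⟩
  | cons x t ih =>
    intro r hl hr
    have hx : x < β := hl x (by simp)
    have ht : ∀ y ∈ t, y < β := fun y hy => hl y (by simp [hy])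
    by_cases hx0 : x = 0
    · have hr' : (t.filter fun x => x ≠ 0).length = r := by
        rw [← hr, List.filter_cons_of_neg]
        simpa using hx0
      obtain ⟨a, d, h1, h2, h3⟩ := ih r ht hr'
      refine ⟨fun i => a i + 1, d, fun i => ?_, h2, ?_⟩
      · rw [List.length_cons]
        have := h1 i
        show a i + 1 < t.length + 1
        omega
      · rw [Nat.ofDigits_cons, hx0, h3, Finset.mul_sum]
        push_cast
        rw [zero_add]
        refine Finset.sum_congr rfl fun i _ => ?_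
        rw [pow_succ]
        ring
    · have hr' : (t.filter fun x => x ≠ 0).length + 1 = r := by
        rw [← hr, List.filter_cons_of_pos (by simpa using hx0), List.length_cons]
      obtain ⟨r', rfl⟩ : ∃ r', r = r' + 1 := ⟨_, hr'.symm⟩
      obtain ⟨a, d, h1, h2, h3⟩ := ih r' ht (by omega)
      refine ⟨Fin.cons 0 (fun i => a i + 1), Fin.cons x d, fun i => ?_, fun i => ?_, ?_⟩
      · refine Fin.cases ?_ (fun i => ?_) i
        · simp
        · rw [Fin.cons_succ, List.length_cons]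
          have := h1 i
          omega
      · refine Fin.cases ?_ (fun i => ?_) i
        · simp [hx0, hx]
        · simpa using h2 i
      · rw [Nat.ofDigits_cons, h3, Fin.sum_univ_succ, Finset.mul_sum]
        simp only [Fin.cons_zero, Fin.cons_succ, pow_zero, mul_one]
        congr 1
        refine Finset.sum_congr rfl fun i _ => ?_
        rw [pow_succ]
        ring

lemma digits_rep {β : ℕ} (hβ : 2 ≤ β) {N m r : ℕ} (hm : m < β ^ N) (hr : nzd β m = r) :
    ∃ (a : Fin r → Fin N) (d : Fin r → Fin β), (∀ i, (d i : ℕ) ≠ 0) ∧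
      m = ∑ i, (d i : ℕ) * β ^ (a i : ℕ) := by
  obtain ⟨a, d, h1, h2, h3⟩ := ofDigits_rep β (Nat.digits β m) r
    (fun x hx => Nat.digits_lt_base (by omega) hx) hr
  have hlen : (Nat.digits β m).length ≤ N := (Nat.digits_length_le_iff (by omega) m).2 hm
  refine ⟨fun i => ⟨a i, (h1 i).trans_le hlen⟩, fun i => ⟨d i, (h2 i).2⟩, fun i => (h2 i).1, ?_⟩
  rw [← h3, Nat.ofDigits_digits]

/-- the number of vectors near a hyperplane -/
lemma count_rel (r N : ℕ) (y : Fin r → ℤ) (hy : y ≠ 0) (t : ℝ) (ht : 0 ≤ t) :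
    ((Finset.univ.filter (fun a : Fin r → Fin N =>
      |((∑ i, y i * ((a i : ℕ) : ℤ) : ℤ) : ℝ)| ≤ t)).card : ℝ) ≤ (2 * t + 1) * (N : ℝ) ^ (r - 1) := by
  classical
  obtain ⟨i0, hi0⟩ : ∃ i, y i ≠ 0 := by
    by_contra h
    push Not at h
    exact hy (funext h)
  obtain ⟨s, hs⟩ : ∃ s : Finset (Fin r → Fin N), s = Finset.univ.filter (fun a : Fin r → Fin N =>
      |((∑ i, y i * ((a i : ℕ) : ℤ) : ℤ) : ℝ)| ≤ t) := ⟨_, rfl⟩
  rw [← hs]
  let f : (Fin r → Fin N) → ({i : Fin r // i ≠ i0} → Fin N) := fun a i => a i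
  have h1 : s.card ≤ (Finset.Icc ⌈-t⌉ ⌊t⌋).card * (s.image f).card := by
    refine Finset.card_le_mul_card_image s _ fun g _ => ?_
    refine Finset.card_le_card_of_injOn (fun a => ∑ i, y i * ((a i : ℕ) : ℤ)) ?_ ?_
    · intro a ha
      rw [Finset.mem_coe, Finset.mem_filter, hs, Finset.mem_filter] at ha
      have h2 := abs_le.1 ha.1.2
      rw [Finset.mem_coe, Finset.mem_Icc]
      exact ⟨Int.ceil_le.2 h2.1, Int.le_floor.2 h2.2⟩
    · intro a ha a' ha' haa
      rw [Finset.mem_coe, Finset.mem_filter] at ha ha'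
      have h2 : ∀ i, i ≠ i0 → a i = a' i := by
        intro i hi
        have h3 := congrFun (ha.2.trans ha'.2.symm) ⟨i, hi⟩
        exact h3
      have h3 : a i0 = a' i0 := by
        simp only at haa
        rw [← Finset.add_sum_erase _ _ (Finset.mem_univ i0),
          ← Finset.add_sum_erase Finset.univ (fun i => y i * ((a' i : ℕ) : ℤ)) (Finset.mem_univ i0)] at haa
        have h4 : ∑ i ∈ Finset.univ.erase i0, y i * ((a i : ℕ) : ℤ) =
            ∑ i ∈ Finset.univ.erase i0, y i * ((a' i : ℕ) : ℤ) := by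
          refine Finset.sum_congr rfl fun i hi => ?_
          rw [h2 i (Finset.ne_of_mem_erase hi)]
        rw [h4] at haa
        have h5 := mul_left_cancel₀ hi0 (add_right_cancel haa)
        apply Fin.ext
        exact_mod_cast h5
      funext i
      by_cases hi : i = i0
      · rw [hi, h3]
      · exact h2 i hi
  have h2 : (s.image f).card ≤ N ^ (r - 1) := by
    refine (Finset.card_le_univ _).trans ?_
    rw [Fintype.card_fun, Fintype.card_fin, Fintype.card_subtype_compl, Fintype.card_fin,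
      Fintype.card_subtype_eq]
  have h3 : ((Finset.Icc ⌈-t⌉ ⌊t⌋).card : ℝ) ≤ 2 * t + 1 := by
    rw [Int.card_Icc]
    have h4 : ((⌊t⌋ + 1 - ⌈-t⌉).toNat : ℤ) = ⌊t⌋ + 1 - ⌈-t⌉ := by
      rw [Int.toNat_of_nonneg]
      rw [Int.ceil_neg]
      have := Int.floor_nonneg.2 ht
      linarith
    have h5 : (((⌊t⌋ + 1 - ⌈-t⌉).toNat : ℤ) : ℝ) = (⌊t⌋ : ℝ) + 1 - (⌈-t⌉ : ℝ) := by
      rw [h4]
      push_cast
      rfl
    rw [Int.cast_natCast] at h5
    rw [h5, Int.ceil_neg]
    have := Int.floor_le t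
    push_cast
    linarith
  calc (s.card : ℝ) ≤ ((Finset.Icc ⌈-t⌉ ⌊t⌋).card : ℝ) * ((s.image f).card : ℝ) := by
        exact_mod_cast h1
    _ ≤ (2 * t + 1) * (N : ℝ) ^ (r - 1) := by
        refine mul_le_mul h3 ?_ (Nat.cast_nonneg _) (by positivity)
        exact_mod_cast h2

/-- the height of a power of `β` -/
lemma height_zpow {β : ℕ} (hβ : 2 ≤ β) (e : ℤ) {X : ℝ}
    (h1 : |((((β : ℚ) ^ e).num : ℤ) : ℝ)| ≤ X) (h2 : ((((β : ℚ) ^ e).den : ℕ) : ℝ) ≤ X) :
    (β : ℝ) ^ |(e : ℝ)| ≤ X := by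
  have hβ0 : 0 < β := by omega
  rcases Int.natAbs_eq e with he | he
  · rw [he, zpow_natCast] at h1
    have h3 : ((β : ℚ) ^ e.natAbs).num = (β : ℤ) ^ e.natAbs := by
      rw [Rat.num_pow, Rat.num_natCast]
    rw [h3] at h1
    have h4 : |(e : ℝ)| = ((e.natAbs : ℕ) : ℝ) := by
      rw [← Int.cast_natCast, Int.natCast_natAbs, Int.cast_abs]
    rw [h4, Real.rpow_natCast]
    push_cast at h1
    rwa [abs_of_nonneg (by positivity)] at h1
  · rw [he, zpow_neg, zpow_natCast] at h2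
    have h3 : (((β : ℚ) ^ e.natAbs)⁻¹).den = β ^ e.natAbs := by
      have h5 : ((β : ℚ) ^ e.natAbs)⁻¹ = (((β ^ e.natAbs : ℕ) : ℚ))⁻¹ := by push_cast; rfl
      rw [h5, Rat.inv_natCast_den_of_pos (by positivity)]
    rw [h3] at h2
    have h4 : |(e : ℝ)| = ((e.natAbs : ℕ) : ℝ) := by
      rw [← Int.cast_natCast, Int.natCast_natAbs, Int.cast_abs]
    rw [h4, Real.rpow_natCast]
    exact_mod_cast h2

open Classical in
/-- **Almost all `m` with `r ≥ 2` nonzero digits.** -/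
theorem density (β : ℕ) (hβ : 2 ≤ β) (S : Finset ℕ) (hS : ∀ p ∈ S, p.Prime)
    (hβS : β.primeFactors ⊆ S) (r : ℕ) (hr : 2 ≤ r) (k : ℕ) (C ε : ℝ) (hC : 1 ≤ C) (hε : 0 < ε)
    (η : ℝ) (hη : 0 < η) :
    ∃ δ : ℝ, 0 < δ ∧ ∃ N₀ : ℕ, ∀ N : ℕ, N₀ ≤ N →
      (((Finset.range (β ^ N)).filter fun m =>
        nzd β m = r ∧ ¬ PrimeLike S k δ C ε (m ^ 2 + 1)).card : ℝ) ≤ η * (N : ℝ) ^ r := by
  obtain ⟨θ, hθ⟩ : ∃ θ : ℝ, θ = η / (8 * (β : ℝ) ^ r) := ⟨_, rfl⟩
  have hβr : (2 : ℝ) ≤ β := by exact_mod_cast hβ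
  have hθ0 : 0 < θ := by rw [hθ]; positivity
  obtain ⟨τ, hτ, c0, hτs, hτc⟩ := posSumOfEncodable hθ0 (Fin r → ℤ)
  obtain ⟨δ, hδ, B, m₀, hmain⟩ := more_terms S hS r hr k C ε hε τ hτ
  obtain ⟨M, hM⟩ : ∃ M : ℕ, M = max (max m₀ 1) ⌈(β : ℝ) ^ (1 / δ)⌉₊ := ⟨_, rfl⟩
  obtain ⟨Q, hQ⟩ : ∃ Q : ℝ, Q = (β : ℝ) ^ r * ((2 * B + 1 : ℕ) : ℝ) ^ r := ⟨_, rfl⟩
  refine ⟨δ, hδ, max 1 (max ⌈4 * Q / η⌉₊ ⌈4 * M / η⌉₊), fun N hN => ?_⟩
  have hN1 : 1 ≤ N := (le_max_left _ _).trans hN
  have hN2 : 4 * Q / η ≤ N := (Nat.le_ceil _).trans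
    (by exact_mod_cast (le_max_left _ _).trans ((le_max_right _ _).trans hN))
  have hN3 : 4 * M / η ≤ N := (Nat.le_ceil _).trans
    (by exact_mod_cast (le_max_right _ _).trans ((le_max_right _ _).trans hN))
  have hNr : (1 : ℝ) ≤ N := by exact_mod_cast hN1
  -- the covering
  obtain ⟨box, hbox⟩ : ∃ box : Finset (Fin r → ℤ),
    box = (Fintype.piFinset fun _ => Finset.Icc (-(B : ℤ)) B).erase 0 := ⟨_, rfl⟩
  obtain ⟨rel, hrel⟩ : ∃ rel : (Fin r → ℤ) → Finset (Fin r → Fin N), rel = fun y =>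
    Finset.univ.filter (fun a : Fin r → Fin N =>
      |((∑ i, y i * ((a i : ℕ) : ℤ) : ℤ) : ℝ)| ≤ τ y * N) := ⟨_, rfl⟩
  obtain ⟨Φ, hΦ⟩ : ∃ Φ : (Fin r → Fin N) × (Fin r → Fin β) → ℕ, Φ = fun x =>
    ∑ i, (x.2 i : ℕ) * β ^ (x.1 i : ℕ) := ⟨_, rfl⟩
  have hcover : ((Finset.range (β ^ N)).filter fun m =>
      nzd β m = r ∧ ¬ PrimeLike S k δ C ε (m ^ 2 + 1)) ⊆
      Finset.range M ∪ box.biUnion fun y => (rel y ×ˢ (Finset.univ : Finset (Fin r → Fin β))).image Φ := by
    intro m hm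
    rw [Finset.mem_filter, Finset.mem_range] at hm
    obtain ⟨hmN, hmr, hbad⟩ := hm
    rw [Finset.mem_union, Finset.mem_range]
    by_cases hmM : m < M
    · exact Or.inl hmM
    right
    push Not at hmM
    have hm₀ : m₀ ≤ m := ((le_max_left _ _).trans (le_max_left _ _)).trans (hM ▸ hmM)
    have hm1 : 1 ≤ m := ((le_max_right _ _).trans (le_max_left _ _)).trans (hM ▸ hmM)
    have hmr1 : (1 : ℝ) ≤ m := by exact_mod_cast hm1
    have hmβ : (β : ℝ) ≤ (m : ℝ) ^ δ := by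
      have h1 : (β : ℝ) ^ (1 / δ) ≤ m := (Nat.le_ceil _).trans
        (by exact_mod_cast (le_max_right _ _).trans (hM ▸ hmM))
      have h2 := Real.rpow_le_rpow (by positivity) h1 hδ.le
      rwa [← Real.rpow_mul (by linarith), one_div_mul_cancel hδ.ne', Real.rpow_one] at h2
    obtain ⟨a, d, hd, hmad⟩ := digits_rep hβ hmN hmr
    have hterm : ∀ i, (d i : ℕ) * β ^ (a i : ℕ) ≤ m := by
      intro i
      rw [hmad]
      exact Finset.single_le_sum (f := fun i => (d i : ℕ) * β ^ (a i : ℕ))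
        (fun _ _ => Nat.zero_le _) (Finset.mem_univ i)
    have hpow : ∀ i, β ^ (a i : ℕ) ≤ m := by
      intro i
      refine le_trans ?_ (hterm i)
      exact Nat.le_mul_of_pos_left _ (Nat.pos_of_ne_zero (hd i))
    have hmC : (m : ℝ) ≤ (m : ℝ) ^ C := by
      have := Real.rpow_le_rpow_of_exponent_le hmr1 hC
      rwa [Real.rpow_one] at this
    have h3 := hmain m hm₀ (fun i => ((d i : ℕ) : ℤ)) (fun i => (β : ℚ) ^ (a i : ℕ))
      (by
        intro i
        refine ⟨by exact_mod_cast hd i, ?_⟩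
        rw [Int.cast_natCast, abs_of_nonneg (Nat.cast_nonneg _)]
        refine le_trans ?_ hmβ
        exact_mod_cast (d i).2.le)
      (by
        intro i
        have hnum : ((β : ℚ) ^ (a i : ℕ)).num = ((β ^ (a i : ℕ) : ℕ) : ℤ) := by
          rw [Rat.num_pow, Rat.num_natCast]
          push_cast
          rfl
        have hden : ((β : ℚ) ^ (a i : ℕ)).den = 1 := by
          rw [Rat.den_pow, Rat.den_natCast, one_pow]
        refine ⟨⟨by positivity, ?_, ?_⟩, ?_, ?_⟩
        · rw [hnum, Int.natAbs_natCast]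
          refine subset_trans ?_ hβS
          intro p hp
          rw [Nat.mem_primeFactors] at hp ⊢
          exact ⟨hp.1, hp.1.dvd_of_dvd_pow hp.2.1, by omega⟩
        · rw [hden]
          simp
        · rw [hnum, Int.cast_natCast, abs_of_nonneg (Nat.cast_nonneg _)]
          refine le_trans ?_ hmC
          exact_mod_cast hpow i
        · rw [hden, Nat.cast_one]
          exact hmr1.trans hmC)
      (by
        rw [hmad]
        push_cast
        rfl)
    rcases h3 with ⟨y, hy0, hyB, hnum, hden⟩ | h3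
    · rw [Finset.mem_biUnion]
      refine ⟨y, ?_, ?_⟩
      · rw [hbox, Finset.mem_erase, Fintype.mem_piFinset]
        refine ⟨hy0, fun i => ?_⟩
        rw [Finset.mem_Icc]
        exact abs_le.1 (hyB i)
      · rw [Finset.mem_image]
        refine ⟨(a, d), ?_, by rw [hΦ]; exact hmad.symm⟩
        rw [Finset.mem_product]
        refine ⟨?_, Finset.mem_univ _⟩
        rw [hrel, Finset.mem_filter]
        refine ⟨Finset.mem_univ _, ?_⟩
        have hprod : ∏ i, ((β : ℚ) ^ (a i : ℕ)) ^ y i =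
            (β : ℚ) ^ (∑ i, y i * ((a i : ℕ) : ℤ)) := by
          have hβ0 : (β : ℚ) ≠ 0 := by exact_mod_cast (by omega : β ≠ 0)
          have h5 : ∀ s : Finset (Fin r), ∏ i ∈ s, ((β : ℚ) ^ (a i : ℕ)) ^ y i =
              (β : ℚ) ^ (∑ i ∈ s, y i * ((a i : ℕ) : ℤ)) := by
            intro s
            induction s using Finset.induction_on with
            | empty => simp
            | insert i s hi ih =>
              rw [Finset.prod_insert hi, Finset.sum_insert hi, zpow_add₀ hβ0, ih, ← zpow_natCast,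
                ← zpow_mul, mul_comm (y i)]
          exact h5 _
        rw [hprod] at hnum hden
        have h6 := height_zpow hβ _ hnum hden
        have h7 : (m : ℝ) ^ τ y ≤ (β : ℝ) ^ (τ y * N) := by
          have h8 : (m : ℝ) ≤ (β : ℝ) ^ (N : ℝ) := by
            rw [Real.rpow_natCast]
            exact_mod_cast hmN.le
          refine (Real.rpow_le_rpow (by linarith) h8 (hτ y).le).trans ?_
          rw [← Real.rpow_mul (by linarith), mul_comm]
        exact (Real.rpow_le_rpow_left_iff (by linarith : (1 : ℝ) < β)).1 (h6.trans h7)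
    · exact absurd h3 hbad
  have hcard1 := (Finset.card_le_card hcover).trans (Finset.card_union_le _ _)
  have hcard2 : ((box.biUnion fun y =>
      (rel y ×ˢ (Finset.univ : Finset (Fin r → Fin β))).image Φ).card : ℝ) ≤
      ∑ y ∈ box, (2 * (τ y * N) + 1) * (N : ℝ) ^ (r - 1) * (β : ℝ) ^ r := by
    have h0 : ((box.biUnion fun y =>
        (rel y ×ˢ (Finset.univ : Finset (Fin r → Fin β))).image Φ).card : ℝ) ≤
        ((∑ y ∈ box, ((rel y ×ˢ (Finset.univ : Finset (Fin r → Fin β))).image Φ).card : ℕ) : ℝ) := by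
      exact_mod_cast Finset.card_biUnion_le
    refine h0.trans ?_
    push_cast
    refine Finset.sum_le_sum fun y hy => ?_
    have hy0 : y ≠ 0 := by
      rw [hbox, Finset.mem_erase] at hy
      exact hy.1
    have h1 : (((rel y ×ˢ (Finset.univ : Finset (Fin r → Fin β))).image Φ).card : ℝ) ≤
        ((rel y).card : ℝ) * (β : ℝ) ^ r := by
      have h2 := Finset.card_image_le (s := rel y ×ˢ (Finset.univ : Finset (Fin r → Fin β))) (f := Φ)
      rw [Finset.card_product, Finset.card_univ, Fintype.card_fun, Fintype.card_fin,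
        Fintype.card_fin] at h2
      exact_mod_cast h2
    refine h1.trans ?_
    refine mul_le_mul_of_nonneg_right ?_ (by positivity)
    rw [hrel]
    exact count_rel r N y hy0 (τ y * N) (mul_nonneg (hτ y).le (Nat.cast_nonneg _))
  have hboxcard : (box.card : ℝ) ≤ ((2 * B + 1 : ℕ) : ℝ) ^ r := by
    have h1 : box.card ≤ (2 * B + 1) ^ r := by
      rw [hbox]
      refine (Finset.card_erase_le).trans ?_
      rw [Fintype.card_piFinset]
      simp only [Int.card_Icc, Finset.prod_const, Finset.card_univ, Fintype.card_fin]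
      apply Nat.pow_le_pow_left
      omega
    exact_mod_cast h1
  have hτsum : ∑ y ∈ box, τ y ≤ θ :=
    (sum_le_hasSum box (fun y _ => (hτ y).le) hτs).trans hτc
  have hsum : ∑ y ∈ box, (2 * (τ y * N) + 1) * (N : ℝ) ^ (r - 1) * (β : ℝ) ^ r ≤
      2 * θ * (β : ℝ) ^ r * (N : ℝ) ^ r + Q * (N : ℝ) ^ (r - 1) := by
    have hNN : (N : ℝ) ^ r = N * (N : ℝ) ^ (r - 1) := by
      conv_lhs => rw [show r = (r - 1) + 1 by omega, pow_succ]
      ring
    have h1 : ∑ y ∈ box, (2 * (τ y * N) + 1) * (N : ℝ) ^ (r - 1) * (β : ℝ) ^ r =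
        (2 * (β : ℝ) ^ r * (N : ℝ) ^ r) * ∑ y ∈ box, τ y +
          ((N : ℝ) ^ (r - 1) * (β : ℝ) ^ r) * (box.card : ℝ) := by
      rw [Finset.mul_sum, Finset.card_eq_sum_ones]
      push_cast
      rw [Finset.mul_sum, ← Finset.sum_add_distrib]
      refine Finset.sum_congr rfl fun y _ => ?_
      rw [hNN]
      ring
    rw [h1]
    have h2 : (2 * (β : ℝ) ^ r * (N : ℝ) ^ r) * ∑ y ∈ box, τ y ≤
        (2 * (β : ℝ) ^ r * (N : ℝ) ^ r) * θ := mul_le_mul_of_nonneg_left hτsum (by positivity)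
    have h3 : ((N : ℝ) ^ (r - 1) * (β : ℝ) ^ r) * (box.card : ℝ) ≤
        ((N : ℝ) ^ (r - 1) * (β : ℝ) ^ r) * ((2 * B + 1 : ℕ) : ℝ) ^ r :=
      mul_le_mul_of_nonneg_left hboxcard (by positivity)
    have h4 : ((N : ℝ) ^ (r - 1) * (β : ℝ) ^ r) * ((2 * B + 1 : ℕ) : ℝ) ^ r =
        Q * (N : ℝ) ^ (r - 1) := by
      rw [hQ]
      ring
    linarith
  have hNN : (N : ℝ) ^ r = N * (N : ℝ) ^ (r - 1) := by
    conv_lhs => rw [show r = (r - 1) + 1 by omega, pow_succ]
    ring
  have hP : (0 : ℝ) < (N : ℝ) ^ (r - 1) := by positivity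
  have hP1 : (1 : ℝ) ≤ (N : ℝ) ^ (r - 1) := one_le_pow₀ hNr
  have h1 : 2 * θ * (β : ℝ) ^ r * (N : ℝ) ^ r = η / 4 * (N : ℝ) ^ r := by
    rw [hθ]
    field_simp
    ring
  have h2 : Q * (N : ℝ) ^ (r - 1) ≤ η / 4 * (N : ℝ) ^ r := by
    rw [div_le_iff₀ hη] at hN2
    rw [hNN]
    have : Q ≤ η / 4 * N := by linarith
    nlinarith
  have h3 : (M : ℝ) ≤ η / 4 * (N : ℝ) ^ r := by
    rw [div_le_iff₀ hη] at hN3
    rw [hNN]
    have h4 : (M : ℝ) ≤ η / 4 * N := by linarith
    have h5 : η / 4 * N ≤ η / 4 * (N * (N : ℝ) ^ (r - 1)) := by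
      apply mul_le_mul_of_nonneg_left _ (by positivity)
      nlinarith
    linarith
  have h4 : (((Finset.range (β ^ N)).filter fun m =>
        nzd β m = r ∧ ¬ PrimeLike S k δ C ε (m ^ 2 + 1)).card : ℝ) ≤ (M : ℝ) +
      ((box.biUnion fun y =>
        (rel y ×ˢ (Finset.univ : Finset (Fin r → Fin β))).image Φ).card : ℝ) := by
    have h5 := hcard1
    rw [Finset.card_range] at h5
    exact_mod_cast h5
  have h5 : 0 < η * (N : ℝ) ^ r := by positivity
  linarith

end Pool.Agent.H95.SP
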