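import Mathlib
import Pool.Agent.H95.SP.Fin

/-!
# The exceptions are real
-/

set_option autoImplicit false

namespace Pool.Agent.H95.SP

open Pool.Agent.H95.EB

lemma coprime_prod {S : Finset ℕ} {w F : ℕ} (hS : ∀ q ∈ S, q ∣ w) (h : Nat.Coprime F w) (N : ℕ) :
    IsCoprime (F : ℤ) (((∏ p ∈ S, p : ℕ) : ℤ) ^ N) := by
  apply IsCoprime.pow_right
  rw [Nat.isCoprime_iff_coprime]
  exact Nat.Coprime.prod_right fun q hq => Nat.Coprime.coprime_dvd_right (hS q hq) h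

/-- a short divisor prevents `F` from being like a prime -/
lemma not_primeLike {S : Finset ℕ} {k : ℕ} {δ C ε : ℝ} {w F z p : ℕ} (hS : ∀ q ∈ S, q ∣ w)
    (hcop : Nat.Coprime F w) (hF : 2 ≤ F) (hz : Short S k ((F : ℝ) ^ δ) ((F : ℝ) ^ C) z)
    (hdvd : z ∣ F) (hzF : z < F) (hp : F ≤ z ^ p) (hε : p * ε < 1) :
    ¬ PrimeLike S k δ C ε F := by
  intro h
  rcases h z hz with ⟨N, hN⟩ | h1
  · have h2 := (coprime_prod hS hcop N).dvd_of_dvd_mul_right hN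
    have h3 : F ∣ z := by exact_mod_cast h2
    rcases Nat.eq_zero_or_pos z with h0 | h0
    · rw [h0, zero_dvd_iff] at hdvd
      omega
    · exact absurd (Nat.le_of_dvd h0 h3) (by omega)
  · have h2 : Int.gcd (z : ℤ) (F : ℤ) = z := by
      rw [Int.gcd_natCast_natCast]
      exact Nat.gcd_eq_left hdvd
    rw [h2] at h1
    have hF1 : (1 : ℝ) < F := by exact_mod_cast (by omega : 1 < F)
    have h3 : (F : ℝ) ≤ ((F : ℝ) ^ ε) ^ p := by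
      refine le_trans (by exact_mod_cast hp) (pow_le_pow_left₀ (Nat.cast_nonneg _) h1 p)
    rw [← Real.rpow_natCast, ← Real.rpow_mul (by linarith)] at h3
    have h5 : (F : ℝ) ^ (ε * (p : ℕ)) < (F : ℝ) ^ (1 : ℝ) := by
      apply Real.rpow_lt_rpow_of_exponent_lt hF1
      linarith
    rw [Real.rpow_one] at h5
    linarith

lemma unit_pow {S : Finset ℕ} {w : ℕ} (hw : w ≠ 0) (hwS : w.primeFactors ⊆ S) (n : ℕ) :
    IsSUnit S ((w : ℚ) ^ n) := by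
  have hnum : ((w : ℚ) ^ n).num = ((w ^ n : ℕ) : ℤ) := by
    rw [Rat.num_pow, Rat.num_natCast]
    push_cast
    rfl
  have hden : ((w : ℚ) ^ n).den = 1 := by
    rw [Rat.den_pow, Rat.den_natCast, one_pow]
  refine ⟨by positivity, ?_, ?_⟩
  · rw [hnum, Int.natAbs_natCast]
    intro p hp
    rw [Nat.mem_primeFactors] at hp
    exact hwS (Nat.mem_primeFactors.2 ⟨hp.1, hp.1.dvd_of_dvd_pow hp.2.1, hw⟩)
  · rw [hden]
    simp

lemma unit_size {w n : ℕ} {X : ℝ} (hX : (1 : ℝ) ≤ X) (h : ((w ^ n : ℕ) : ℝ) ≤ X) :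
    |((((w : ℚ) ^ n).num : ℤ) : ℝ)| ≤ X ∧ ((((w : ℚ) ^ n).den : ℕ) : ℝ) ≤ X := by
  have hnum : ((w : ℚ) ^ n).num = ((w ^ n : ℕ) : ℤ) := by
    rw [Rat.num_pow, Rat.num_natCast]
    push_cast
    rfl
  have hden : ((w : ℚ) ^ n).den = 1 := by
    rw [Rat.den_pow, Rat.den_natCast, one_pow]
  rw [hnum, hden, Int.cast_natCast, abs_of_nonneg (Nat.cast_nonneg _), Nat.cast_one]
  exact ⟨h, hX⟩

/-- odd powers -/
theorem odd_power (S : Finset ℕ) (w : ℕ) (hw : 2 ≤ w) (hS : ∀ q ∈ S, q ∣ w)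
    (hwS : w.primeFactors ⊆ S) (p : ℕ) (hp : Odd p) (hp3 : 3 ≤ p) (δ C ε : ℝ) (hδ : 0 ≤ δ)
    (hC : 1 ≤ C) (hε : p * ε < 1) : ¬ PrimeLike S 2 δ C ε ((w ^ p) ^ 2 + 1) := by
  obtain ⟨F, hF⟩ : ∃ F : ℕ, F = (w ^ p) ^ 2 + 1 := ⟨_, rfl⟩
  have hF' : F = (w ^ 2) ^ p + 1 := by rw [hF, ← pow_mul, ← pow_mul, mul_comm]
  rw [← hF]
  have h4 : 4 ≤ w ^ 2 := by nlinarith
  have hlt : w ^ 2 < (w ^ 2) ^ p := by
    calc w ^ 2 = (w ^ 2) ^ 1 := (pow_one _).symm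
      _ < (w ^ 2) ^ p := Nat.pow_lt_pow_right (by omega) (by omega)
  have hF1 : (1 : ℝ) ≤ F := by exact_mod_cast (by omega : 1 ≤ F)
  have hFδ : (1 : ℝ) ≤ (F : ℝ) ^ δ := Real.one_le_rpow hF1 hδ
  have hFC : (F : ℝ) ≤ (F : ℝ) ^ C := by
    have := Real.rpow_le_rpow_of_exponent_le hF1 hC
    rwa [Real.rpow_one] at this
  refine not_primeLike (w := w) (z := w ^ 2 + 1) (p := p) hS ?_ (by omega) ?_ ?_ (by omega) ?_ hε
  · rw [hF, Nat.coprime_comm]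
    have h1 : w ∣ (w ^ p) ^ 2 := by
      rw [← pow_mul]
      exact dvd_pow_self w (by omega)
    rw [Nat.coprime_iff_isRelPrime]
    intro d hd1 hd2
    have h2 := (Nat.dvd_add_right (hd1.trans h1)).1 hd2
    exact isUnit_iff_dvd_one.2 h2
  · refine ⟨fun _ => 1, ![(w : ℚ) ^ 2, (w : ℚ) ^ 0], fun i => ?_, fun i => ?_, ?_⟩
    · simpa using hFδ
    · fin_cases i
      · refine ⟨unit_pow (by omega) hwS 2, ?_⟩
        refine unit_size (hF1.trans hFC) (le_trans ?_ hFC)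
        exact_mod_cast (by omega : w ^ 2 ≤ F)
      · refine ⟨unit_pow (by omega) hwS 0, ?_⟩
        refine unit_size (hF1.trans hFC) (le_trans ?_ hFC)
        simpa using hF1
    · simp [Fin.sum_univ_two]
  · rw [hF']
    have := hp.nat_add_dvd_pow_add_pow (w ^ 2) 1
    simpa using this
  · rw [hF']
    have h1 : ∀ n : ℕ, 1 ≤ n → (w ^ 2) ^ n + 1 ≤ (w ^ 2 + 1) ^ n := by
      intro n hn
      induction n, hn using Nat.le_induction with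
      | base => simp
      | succ n _ ih =>
        rw [pow_succ, pow_succ (w ^ 2 + 1)]
        nlinarith [Nat.zero_le ((w ^ 2) ^ n)]
    exact h1 p (by omega)

/-- twice a square -/
theorem twice_square (S : Finset ℕ) (w : ℕ) (hw : 2 ≤ w) (hS : ∀ q ∈ S, q ∣ w)
    (hwS : w.primeFactors ⊆ S) (δ C ε : ℝ) (hδ : 0 ≤ δ)
    (hC : 1 ≤ C) (hε : 2 * ε < 1) : ¬ PrimeLike S 5 δ C ε ((2 * w ^ 2) ^ 2 + 1) := by
  obtain ⟨F, hF⟩ : ∃ F : ℕ, F = (2 * w ^ 2) ^ 2 + 1 := ⟨_, rfl⟩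
  rw [← hF]
  have h4 : 4 ≤ w ^ 2 := by nlinarith
  have hlt : 2 * w ^ 2 + 2 * w + 1 < F := by
    rw [hF]
    nlinarith
  have hF1 : (1 : ℝ) ≤ F := by exact_mod_cast (by omega : 1 ≤ F)
  have hFδ : (1 : ℝ) ≤ (F : ℝ) ^ δ := Real.one_le_rpow hF1 hδ
  have hFC : (F : ℝ) ≤ (F : ℝ) ^ C := by
    have := Real.rpow_le_rpow_of_exponent_le hF1 hC
    rwa [Real.rpow_one] at this
  refine not_primeLike (w := w) (z := 2 * w ^ 2 + 2 * w + 1) (p := 2) hS ?_ (by omega) ?_ ?_ hlt ?_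
    (by push_cast; exact hε)
  · rw [hF, Nat.coprime_comm]
    have h1 : w ∣ (2 * w ^ 2) ^ 2 := by
      refine Dvd.dvd.trans ?_ (dvd_pow_self _ two_ne_zero)
      exact Dvd.dvd.mul_left (dvd_pow_self w two_ne_zero) 2
    rw [Nat.coprime_iff_isRelPrime]
    intro d hd1 hd2
    have h2 := (Nat.dvd_add_right (hd1.trans h1)).1 hd2
    exact isUnit_iff_dvd_one.2 h2
  · refine ⟨fun _ => 1, ![(w : ℚ) ^ 2, (w : ℚ) ^ 2, (w : ℚ) ^ 1, (w : ℚ) ^ 1, (w : ℚ) ^ 0],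
      fun i => ?_, fun i => ?_, ?_⟩
    · simpa using hFδ
    · have h2 : ((w ^ 2 : ℕ) : ℝ) ≤ F := by exact_mod_cast (by omega : w ^ 2 ≤ F)
      have h3 : ((w ^ 1 : ℕ) : ℝ) ≤ F := by exact_mod_cast (by rw [pow_one]; omega : w ^ 1 ≤ F)
      have h5 : ((w ^ 0 : ℕ) : ℝ) ≤ F := by simpa using hF1
      fin_cases i
      · exact ⟨unit_pow (by omega) hwS 2, unit_size (hF1.trans hFC) (h2.trans hFC)⟩
      · exact ⟨unit_pow (by omega) hwS 2, unit_size (hF1.trans hFC) (h2.trans hFC)⟩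
      · exact ⟨unit_pow (by omega) hwS 1, unit_size (hF1.trans hFC) (h3.trans hFC)⟩
      · exact ⟨unit_pow (by omega) hwS 1, unit_size (hF1.trans hFC) (h3.trans hFC)⟩
      · exact ⟨unit_pow (by omega) hwS 0, unit_size (hF1.trans hFC) (h5.trans hFC)⟩
    · simp [Fin.sum_univ_five]
      ring
  · rw [hF]
    have h1 : ((2 * w ^ 2 + 2 * w + 1 : ℕ) : ℤ) ∣ (((2 * w ^ 2) ^ 2 + 1 : ℕ) : ℤ) := by
      refine ⟨2 * (w : ℤ) ^ 2 - 2 * w + 1, ?_⟩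
      push_cast
      ring
    exact_mod_cast h1
  · rw [hF]
    nlinarith [Nat.zero_le w, Nat.zero_le (w ^ 2), Nat.zero_le (w ^ 3)]

end Pool.Agent.H95.SP
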